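import Pool.Agent.Helper24.SQ.Defs

/-!
# MODULE Rook: recursions for the rook sums
-/

set_option autoImplicit false
set_option linter.unusedSectionVars false

namespace Pool.Agent.Helper24.SQ

open Finset Matrix

section Semi

variable {K I J : Type} [CommSemiring K] [DecidableEq I] [DecidableEq J]

theorem E_empty (Y : I → J → K) (A : Finset I) : E Y A ∅ = 1 := by
  unfold E
  rw [Fintype.sum_eq_single (⟨fun x => (Finset.notMem_empty _ x.2).elim,
    fun x => (Finset.notMem_empty _ x.2).elim⟩ : (∅ : Finset J) ↪ A)]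
  · simp
  · intro σ hσ
    exact (hσ (Function.Embedding.ext fun x => (Finset.notMem_empty _ x.2).elim)).elim

theorem E_congr {Y Y' : I → J → K} {A : Finset I} {T : Finset J}
    (h : ∀ i ∈ A, ∀ l ∈ T, Y i l = Y' i l) : E Y A T = E Y' A T := by
  unfold E
  refine Finset.sum_congr rfl fun σ _ => Finset.prod_congr rfl fun l _ => h _ (σ l).2 _ l.2

/-- extension of an injection -/
def embExt {A : Finset I} {T : Finset J} (l : J) (i : A)
    (τ : T ↪ (A.erase (i : I) : Finset I)) : (insert l T : Finset J) ↪ A :=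
  ⟨fun k => if h : (k : J) = l then i else
      ⟨τ ⟨k, (mem_insert.1 k.2).resolve_left h⟩, mem_of_mem_erase (τ _).2⟩, fun k k' h => by
    dsimp only at h
    split_ifs at h with h1 h2 h2
    · exact Subtype.ext (h1.trans h2.symm)
    · have := ne_of_mem_erase (τ ⟨k', (mem_insert.1 k'.2).resolve_left h2⟩).2
      exact (this (congrArg Subtype.val h).symm).elim
    · have := ne_of_mem_erase (τ ⟨k, (mem_insert.1 k.2).resolve_left h1⟩).2
      exact (this (congrArg Subtype.val h)).elim
    · have h4 := τ.injective (Subtype.ext (Subtype.mk.inj h))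
      exact Subtype.ext (Subtype.mk.inj h4)⟩

theorem embExt_self {A : Finset I} {T : Finset J} (l : J) (i : A)
    (τ : T ↪ (A.erase (i : I) : Finset I)) :
    embExt l i τ ⟨l, mem_insert_self l T⟩ = i := dif_pos rfl

theorem embExt_of_mem {A : Finset I} {T : Finset J} {l : J} (hl : l ∉ T) (i : A)
    (τ : T ↪ (A.erase (i : I) : Finset I)) (k : T) :
    (embExt l i τ ⟨k, mem_insert_of_mem k.2⟩ : I) = τ k := by
  have h : (k : J) ≠ l := fun h => hl (h ▸ k.2)
  exact congrArg Subtype.val (dif_neg h)

theorem E_insert (Y : I → J → K) (A : Finset I) {T : Finset J} {l : J} (hl : l ∉ T) :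
    E Y A (insert l T) = ∑ i ∈ A, Y i l * E Y (A.erase i) T := by
  unfold E
  rw [← Finset.sum_coe_sort A (fun i => Y i l * ∑ τ : T ↪ (A.erase i : Finset I),
    ∏ k : T, Y (τ k) k), ← Finset.sum_fiberwise (s := univ)
      (g := fun σ : (insert l T : Finset J) ↪ A => σ ⟨l, mem_insert_self l T⟩)]
  refine Finset.sum_congr rfl fun i _ => ?_
  rw [Finset.mul_sum]
  symm
  refine Finset.sum_nbij (fun τ => embExt l i τ) ?_ ?_ ?_ ?_
  · intro τ _
    simp [embExt_self]
  · intro τ _ τ' _ h
    ext k
    have := congrArg (fun σ : (insert l T : Finset J) ↪ A =>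
      ((σ ⟨k, mem_insert_of_mem k.2⟩ : A) : I)) h
    simpa [embExt_of_mem hl] using this
  · intro σ hσ
    have hσ' : σ ⟨l, mem_insert_self l T⟩ = i := by simpa using hσ
    refine ⟨⟨fun k => ⟨σ ⟨k, mem_insert_of_mem k.2⟩, mem_erase.2 ⟨fun h => ?_, (σ _).2⟩⟩,
      fun k k' h => ?_⟩, by simp, ?_⟩
    · rw [← hσ'] at h
      have h2 := σ.injective (Subtype.ext h)
      have h3 : (k : J) = l := Subtype.mk.inj h2
      exact hl (h3 ▸ k.2)
    · have h1 := σ.injective (Subtype.ext (Subtype.mk.inj h))
      exact Subtype.ext (Subtype.mk.inj h1)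
    · ext k
      obtain ⟨k, hk⟩ := k
      rcases mem_insert.1 hk with h | h
      · subst h
        rw [embExt_self, hσ']
      · rw [embExt_of_mem hl i _ ⟨k, h⟩]
        rfl
  · intro τ _
    have h1 : ∀ f : ↥(insert l T : Finset J) → K, ∏ k, f k =
        f ⟨l, mem_insert_self l T⟩ * ∏ k : T, f ⟨k, mem_insert_of_mem k.2⟩ := by
      intro f
      rw [← (Finset.subtypeInsertEquivOption hl).symm.prod_comp, Fintype.prod_option]
      rfl
    rw [h1, embExt_self]
    simp_rw [embExt_of_mem hl]

/-- Choice of the row used by the column `l`. -/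
theorem E_col (Y : I → J → K) (A : Finset I) {T : Finset J} {l : J} (hl : l ∈ T) :
    E Y A T = ∑ i ∈ A, Y i l * E Y (A.erase i) (T.erase l) := by
  conv_lhs => rw [← Finset.insert_erase hl]
  exact E_insert Y A (Finset.notMem_erase l T)

/-- Either the row `i` is not used, or it is used by one column. -/
theorem E_row (Y : I → J → K) {A : Finset I} {i : I} (hi : i ∈ A) (T : Finset J) :
    E Y A T = E Y (A.erase i) T + ∑ l ∈ T, Y i l * E Y (A.erase i) (T.erase l) := by
  induction T using Finset.induction_on generalizing A with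
  | empty => simp [E_empty]
  | insert l T hl ih =>
    rw [E_insert Y A hl, ← Finset.add_sum_erase A _ hi, Finset.sum_insert hl,
      Finset.erase_insert hl, add_left_comm]
    congr 1
    have h1 : ∀ i' ∈ A.erase i, Y i' l * E Y (A.erase i') T =
        Y i' l * E Y ((A.erase i).erase i') T +
          ∑ l' ∈ T, Y i l' * (Y i' l * E Y ((A.erase i).erase i') (T.erase l')) := by
      intro i' hi'
      rw [ih (A := A.erase i') (mem_erase.2 ⟨(ne_of_mem_erase hi').symm, hi⟩),
        Finset.erase_right_comm, mul_add, Finset.mul_sum]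
      congr 1
      exact Finset.sum_congr rfl fun l' _ => by ring
    rw [Finset.sum_congr rfl h1, Finset.sum_add_distrib, Finset.sum_comm, E_insert Y _ hl]
    congr 1
    refine Finset.sum_congr rfl fun l' hl' => ?_
    have hne : l ≠ l' := fun h => hl (h ▸ hl')
    rw [← Finset.mul_sum, Finset.erase_insert_of_ne hne, E_insert Y _ (fun h => hl (mem_of_mem_erase h))]

end Semi

section Ring

variable {K I J : Type} [CommRing K] [DecidableEq I] [DecidableEq J]

theorem sum_insert_powerset (T : Finset J) (f : Finset J → K) :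
    ∑ l ∈ T, ∑ U ∈ (T.erase l).powerset, f (insert l U) =
      ∑ U ∈ T.powerset, (U.card : K) * f U := by
  have h1 : ∀ l ∈ T, ∑ U ∈ (T.erase l).powerset, f (insert l U) =
      ∑ U ∈ T.powerset with l ∈ U, f U := by
    intro l hl
    refine Finset.sum_nbij' (fun U => insert l U) (fun U => U.erase l) ?_ ?_ ?_ ?_ ?_
    · intro U hU
      rw [mem_powerset] at hU
      simp only [mem_filter, mem_powerset, mem_insert_self, and_true]
      exact insert_subset hl (hU.trans (erase_subset _ _))
    · intro U hU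
      rw [mem_filter, mem_powerset] at hU
      rw [mem_powerset]
      exact erase_subset_erase _ hU.1
    · intro U hU
      rw [mem_powerset] at hU
      exact erase_insert fun h => notMem_erase _ _ (hU h)
    · intro U hU
      rw [mem_filter] at hU
      exact insert_erase hU.2
    · intro U _
      rfl
  rw [Finset.sum_congr rfl h1]
  simp_rw [Finset.sum_filter]
  rw [Finset.sum_comm]
  refine Finset.sum_congr rfl fun U hU => ?_
  rw [mem_powerset] at hU
  rw [← Finset.sum_filter, Finset.sum_const, nsmul_eq_mul]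
  congr 3
  ext x
  simp only [mem_filter]
  exact ⟨fun h => h.2, fun h => ⟨hU h, h⟩⟩

theorem E_erase (Y : I → J → K) {A : Finset I} {i : I} (hi : i ∈ A) (T : Finset J) :
    E Y (A.erase i) T = ∑ U ∈ T.powerset, (-1) ^ U.card * (U.card.factorial : K) *
      (∏ l ∈ U, Y i l) * E Y A (T \ U) := by
  induction hn : T.card using Nat.strong_induction_on generalizing T with
  | _ n ih =>
  have h0 := E_row Y hi T
  obtain ⟨f, hf⟩ : ∃ f : Finset J → K, ∀ V, f V = (-1) ^ (V.card - 1) *
        ((V.card - 1).factorial : K) * (∏ l ∈ V, Y i l) * E Y A (T \ V) := ⟨_, fun _ => rfl⟩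
  have h1 : ∀ l ∈ T, Y i l * E Y (A.erase i) (T.erase l) =
      ∑ U ∈ (T.erase l).powerset, f (insert l U) := by
    intro l hl
    rw [ih (T.erase l).card (by rw [← hn]; exact card_erase_lt_of_mem hl) (T.erase l) rfl,
      Finset.mul_sum]
    refine Finset.sum_congr rfl fun U hU => ?_
    rw [mem_powerset] at hU
    have hlU : l ∉ U := fun h => notMem_erase _ _ (hU h)
    have h2 : T \ insert l U = T.erase l \ U := by
      ext x
      simp only [mem_sdiff, mem_insert, mem_erase, not_or]
      tauto
    simp only [hf, card_insert_of_notMem hlU, prod_insert hlU, h2, Nat.add_sub_cancel]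
    ring
  rw [Finset.sum_congr rfl h1, sum_insert_powerset] at h0
  rw [← sub_eq_iff_eq_add] at h0
  rw [← h0, ← Finset.add_sum_erase (T.powerset) (fun U : Finset J => (U.card : K) * f U)
        (Finset.empty_mem_powerset T), ← Finset.add_sum_erase (T.powerset)
        (fun U : Finset J => (-1) ^ U.card * (U.card.factorial : K) *
      (∏ l ∈ U, Y i l) * E Y A (T \ U)) (Finset.empty_mem_powerset T)]
  simp only [card_empty, Nat.cast_zero, zero_mul, zero_add, pow_zero, Nat.factorial_zero,
    Nat.cast_one, mul_one, prod_empty, sdiff_empty, one_mul]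
  rw [sub_eq_add_neg, ← Finset.sum_neg_distrib]
  congr 1
  refine Finset.sum_congr rfl fun U hU => ?_
  have hU1 : U.card ≠ 0 := by
    rw [Finset.card_ne_zero, Finset.nonempty_iff_ne_empty]
    exact (mem_erase.1 hU).1
  obtain ⟨k, hk⟩ := Nat.exists_eq_succ_of_ne_zero hU1
  rw [hf, hk]
  simp only [Nat.succ_eq_add_one, Nat.add_sub_cancel, Nat.factorial_succ]
  push_cast
  ring

variable [Fintype I]

theorem E_univ_col (Y : I → J → K) {T : Finset J} {l : J} (hl : l ∈ T) :
    E Y univ T = ∑ U ∈ (T.erase l).powerset, (-1) ^ U.card * (U.card.factorial : K) *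
      (∑ i, ∏ l ∈ insert l U, Y i l) * E Y univ (T.erase l \ U) := by
  rw [E_col Y univ hl]
  have h1 : ∀ i ∈ (univ : Finset I), Y i l * E Y (univ.erase i) (T.erase l) =
      ∑ U ∈ (T.erase l).powerset, Y i l * ((-1) ^ U.card * (U.card.factorial : K) *
        (∏ l ∈ U, Y i l) * E Y univ (T.erase l \ U)) := by
    intro i _
    rw [E_erase Y (mem_univ i) (T.erase l), Finset.mul_sum]
  rw [Finset.sum_congr rfl h1, Finset.sum_comm]
  refine Finset.sum_congr rfl fun U hU => ?_
  rw [mem_powerset] at hU
  have hlU : l ∉ U := fun h => notMem_erase _ _ (hU h)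
  simp_rw [prod_insert hlU, Finset.mul_sum, Finset.sum_mul]
  exact Finset.sum_congr rfl fun i _ => by ring

/-- If the mixed moments of order `< d` vanish, then the rook sums of order `< d` vanish. -/
theorem E_eq_zero (Y : I → J → K) {d : ℕ}
    (hμ : ∀ T : Finset J, T.Nonempty → T.card < d → ∑ i, ∏ l ∈ T, Y i l = 0)
    {T : Finset J} (hT : T.Nonempty) (hT' : T.card < d) : E Y univ T = 0 := by
  obtain ⟨l, hl⟩ := hT
  rw [E_univ_col Y hl]
  refine Finset.sum_eq_zero fun U hU => ?_
  rw [mem_powerset] at hU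
  have hsub : insert l U ⊆ T := insert_subset hl (hU.trans (erase_subset _ _))
  rw [hμ (insert l U) ⟨l, mem_insert_self l U⟩ ((card_le_card hsub).trans_lt hT'), mul_zero,
    zero_mul]

theorem E_eq_moment (Y : I → J → K) {d : ℕ}
    (hμ : ∀ T : Finset J, T.Nonempty → T.card < d → ∑ i, ∏ l ∈ T, Y i l = 0)
    {T : Finset J} (hT : T.Nonempty) (hT' : T.card = d) :
    E Y univ T = (-1) ^ (d - 1) * ((d - 1).factorial : K) * ∑ i, ∏ l ∈ T, Y i l := by
  obtain ⟨l, hl⟩ := hT
  rw [E_univ_col Y hl, Finset.sum_eq_single (T.erase l)]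
  · rw [sdiff_self, Finset.insert_erase hl, card_erase_of_mem hl, hT']
    simp [E_empty]
  · intro U hU hne
    rw [mem_powerset] at hU
    have hlU : l ∉ U := fun h => notMem_erase _ _ (hU h)
    have hlt : (insert l U).card < d := by
      have h1 := card_lt_card (ssubset_of_subset_of_ne hU hne)
      rw [card_erase_of_mem hl, hT'] at h1
      rw [card_insert_of_notMem hlU]
      omega
    rw [hμ (insert l U) ⟨l, mem_insert_self l U⟩ hlt, mul_zero, zero_mul]
  · intro h
    exact (h (mem_powerset_self _)).elim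

theorem E_erase_lt (Y : I → J → K) {d : ℕ}
    (hμ : ∀ T : Finset J, T.Nonempty → T.card < d → ∑ i, ∏ l ∈ T, Y i l = 0)
    (i : I) {T : Finset J} (hT : T.card < d) :
    E Y (univ.erase i) T = (-1) ^ T.card * (T.card.factorial : K) * ∏ l ∈ T, Y i l := by
  rw [E_erase Y (mem_univ i), Finset.sum_eq_single T]
  · rw [sdiff_self]
    simp [E_empty]
  · intro U hU hne
    rw [mem_powerset] at hU
    have hne' : (T \ U).Nonempty := by
      rw [sdiff_nonempty]
      exact fun h => hne (Subset.antisymm hU h)
    rw [E_eq_zero Y hμ hne' ((card_le_card sdiff_subset).trans_lt hT), mul_zero]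
  · intro h
    exact (h (mem_powerset_self _)).elim

theorem E_erase_eq (Y : I → J → K) {d : ℕ}
    (hμ : ∀ T : Finset J, T.Nonempty → T.card < d → ∑ i, ∏ l ∈ T, Y i l = 0)
    (i : I) {T : Finset J} (hT : T.Nonempty) (hT' : T.card = d) :
    E Y (univ.erase i) T = (-1) ^ (d - 1) * ((d - 1).factorial : K) * ∑ i', ∏ l ∈ T, Y i' l +
      (-1) ^ d * (d.factorial : K) * ∏ l ∈ T, Y i l := by
  rw [E_erase Y (mem_univ i), ← Finset.add_sum_erase _ _ (Finset.empty_mem_powerset T)]
  congr 1
  · rw [sdiff_empty, E_eq_moment Y hμ hT hT']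
    simp
  · rw [Finset.sum_eq_single T]
    · rw [sdiff_self, hT']
      simp [E_empty]
    · intro U hU hne
      rw [mem_erase, mem_powerset] at hU
      have hne' : (T \ U).Nonempty := by
        rw [sdiff_nonempty]
        exact fun h => hne (Subset.antisymm hU.2 h)
      have hlt : (T \ U).card < d := by
        rw [← hT']
        refine card_lt_card (sdiff_ssubset hU.2 (nonempty_iff_ne_empty.2 hU.1))
      rw [E_eq_zero Y hμ hne' hlt, mul_zero]
    · intro h
      exact (h (mem_erase.2 ⟨hT.ne_empty, mem_powerset_self _⟩)).elim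

theorem E_erase_erase (Y : I → J → K) {d : ℕ}
    (hμ : ∀ T : Finset J, T.Nonempty → T.card < d → ∑ i, ∏ l ∈ T, Y i l = 0)
    {i i' : I} (hi : i ≠ i') {T : Finset J} (hT : T.card < d) :
    E Y ((univ.erase i).erase i') T = (-1) ^ T.card * ∑ U ∈ T.powerset,
      (U.card.factorial : K) * ((T \ U).card.factorial : K) * (∏ l ∈ U, Y i' l) *
        ∏ l ∈ T \ U, Y i l := by
  rw [E_erase Y (mem_erase.2 ⟨hi.symm, mem_univ i'⟩), Finset.mul_sum]
  refine Finset.sum_congr rfl fun U hU => ?_
  rw [mem_powerset] at hU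
  rw [E_erase_lt Y hμ i ((card_le_card sdiff_subset).trans_lt hT), ← card_sdiff_add_card_eq_card hU,
    pow_add]
  ring

end Ring

end Pool.Agent.Helper24.SQ
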