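import Pool.Agent.Helper24.SQ.Defs

/-!
# MODULE Pad: elementary properties of determinantal representations
-/

set_option autoImplicit false

namespace Pool.Agent.Helper24.SQ

open Finset Matrix

/-! ### polynomials of degree at most one -/

/-- A polynomial of degree at most one, as a function. -/
theorem eval_of_totalDegree_le_one {τ : Type} [Fintype τ] (f : MvPolynomial τ ℂ)
    (hf : f.totalDegree ≤ 1) (y : τ → ℂ) :
    MvPolynomial.eval y f = f.coeff 0 + ∑ t, f.coeff (Finsupp.single t 1) * y t := by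
  classical
  rw [MvPolynomial.eval_eq']
  have h0 : (0 : τ →₀ ℕ) ∉ univ.image fun t : τ => Finsupp.single t 1 := by
    rw [mem_image]
    rintro ⟨t, _, ht⟩
    have := DFunLike.congr_fun ht t
    simp at this
  have hsub : f.support ⊆ insert (0 : τ →₀ ℕ) (univ.image fun t : τ => Finsupp.single t 1) := by
    intro s hs
    have h1 := (MvPolynomial.le_totalDegree hs).trans hf
    rw [mem_insert, mem_image]
    by_cases hz : s = 0
    · exact Or.inl hz
    · right
      obtain ⟨t, ht⟩ : ∃ t, s t ≠ 0 := by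
        by_contra h
        push Not at h
        exact hz (Finsupp.ext h)
      refine ⟨t, mem_univ _, ?_⟩
      have h2 : ∑ u, s u ≤ 1 := by
        rwa [Finsupp.sum_fintype _ _ (fun _ => rfl)] at h1
      rw [← Finset.add_sum_erase univ s (mem_univ t)] at h2
      have h3 : ∑ u ∈ univ.erase t, s u = 0 := by omega
      rw [Finset.sum_eq_zero_iff] at h3
      ext u
      rw [Finsupp.single_apply]
      split_ifs with htu
      · subst htu; omega
      · exact (h3 u (mem_erase.2 ⟨fun h => htu h.symm, mem_univ _⟩)).symm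
  rw [Finset.sum_subset hsub, Finset.sum_insert h0, Finset.sum_image]
  · simp only [Finsupp.coe_zero, Pi.zero_apply, pow_zero, Finset.prod_const_one, mul_one]
    congr 1
    refine Finset.sum_congr rfl fun t _ => ?_
    congr 1
    rw [Finset.prod_eq_single t]
    · simp
    · intro u _ hu
      rw [Finsupp.single_eq_of_ne hu, pow_zero]
    · intro h
      exact absurd (mem_univ _) h
  · intro t _ t' _ h
    exact (Finsupp.single_left_injective one_ne_zero) h
  · intro s _ hs
    rw [MvPolynomial.notMem_support_iff.1 hs, zero_mul]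

/-- Affine substitutions. -/
theorem DetRep.subst {σ τ : Type} [Fintype σ] [Fintype τ] {P : MvPolynomial σ ℂ} {m : ℕ}
    (h : DetRep P m) (f : σ → MvPolynomial τ ℂ) (hf : ∀ s, (f s).totalDegree ≤ 1) :
    DetRep (MvPolynomial.aeval f P) m := by
  obtain ⟨A₀, L, hA⟩ := h
  refine ⟨A₀ + ∑ s, (f s).coeff 0 • L s,
    fun t => ∑ s, (f s).coeff (Finsupp.single t 1) • L s, fun y => ?_⟩
  have h1 : MvPolynomial.eval y (MvPolynomial.aeval f P) =
      MvPolynomial.eval (fun s => MvPolynomial.eval y (f s)) P := by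
    rw [MvPolynomial.aeval_def, MvPolynomial.algebraMap_eq, MvPolynomial.eval_eval₂]
    congr 1
    ext z
    simp
  rw [h1, hA]
  congr 1
  have h2 : ∀ s, MvPolynomial.eval y (f s) • L s = (f s).coeff 0 • L s +
      ∑ t, y t • ((f s).coeff (Finsupp.single t 1) • L s) := by
    intro s
    rw [eval_of_totalDegree_le_one (f s) (hf s), add_smul, Finset.sum_smul]
    congr 1
    refine Finset.sum_congr rfl fun t _ => ?_
    rw [smul_smul, mul_comm]
  rw [Finset.sum_congr rfl fun s _ => h2 s, Finset.sum_add_distrib, add_assoc]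
  congr 2
  rw [Finset.sum_comm]
  refine Finset.sum_congr rfl fun t _ => ?_
  rw [Finset.smul_sum]

theorem totalDegree_det_le {σ : Type} {m : ℕ} (M : Matrix (Fin m) (Fin m) (MvPolynomial σ ℂ))
    (hM : ∀ i j, (M i j).totalDegree ≤ 1) : M.det.totalDegree ≤ m := by
  rw [Matrix.det_apply']
  refine MvPolynomial.totalDegree_finsetSum_le fun π _ => ?_
  have h1 : (((Equiv.Perm.sign π : ℤˣ) : ℤ) : MvPolynomial σ ℂ) =
      MvPolynomial.C ((((Equiv.Perm.sign π : ℤˣ) : ℤ) : ℂ)) := by
    simp
  rw [h1]
  refine (MvPolynomial.totalDegree_mul _ _).trans ?_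
  rw [MvPolynomial.totalDegree_C, zero_add]
  refine (MvPolynomial.totalDegree_finsetProd _ _).trans ?_
  calc ∑ i : Fin m, (M (π i) i).totalDegree ≤ ∑ _i : Fin m, 1 := Finset.sum_le_sum fun i _ => hM _ _
    _ = m := by simp

theorem DetRep.totalDegree_le {σ : Type} [Fintype σ] {P : MvPolynomial σ ℂ} {m : ℕ}
    (h : DetRep P m) : P.totalDegree ≤ m := by
  obtain ⟨A₀, L, hA⟩ := h
  have h1 : P = (Matrix.of fun i j : Fin m => (MvPolynomial.C (A₀ i j) +
      ∑ v, MvPolynomial.X v * MvPolynomial.C (L v i j) : MvPolynomial σ ℂ)).det := by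
    apply MvPolynomial.funext
    intro x
    rw [hA x, RingHom.map_det]
    congr 1
    ext i j
    simp [Matrix.sum_apply]
  rw [h1]
  apply totalDegree_det_le
  intro i j
  rw [Matrix.of_apply]
  refine (MvPolynomial.totalDegree_add _ _).trans (max_le ?_ ?_)
  · rw [MvPolynomial.totalDegree_C]; exact zero_le_one
  · refine MvPolynomial.totalDegree_finsetSum_le fun v _ => ?_
    refine (MvPolynomial.totalDegree_mul _ _).trans ?_
    rw [MvPolynomial.totalDegree_C, MvPolynomial.totalDegree_X]

theorem aeval_permPoly {A : Type} [CommRing A] [Algebra ℂ A] (n : ℕ) (f : Fin n × Fin n → A) :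
    MvPolynomial.aeval f (permPoly n) = (Matrix.of fun i j => f (i, j)).permanent := by
  unfold permPoly Matrix.permanent
  rw [map_sum]
  refine Finset.sum_congr rfl fun π _ => ?_
  rw [map_prod]
  refine Finset.prod_congr rfl fun i _ => ?_
  rw [Matrix.of_apply, Matrix.of_apply, MvPolynomial.aeval_X]

theorem permPoly_totalDegree_le (n : ℕ) : (permPoly n).totalDegree ≤ n := by
  unfold permPoly Matrix.permanent
  refine MvPolynomial.totalDegree_finsetSum_le fun π _ => ?_
  refine (MvPolynomial.totalDegree_finsetProd _ _).trans ?_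
  calc ∑ i : Fin n, ((Matrix.of fun i j : Fin n => (MvPolynomial.X (i, j) :
        MvPolynomial (Fin n × Fin n) ℂ)) (π i) i).totalDegree ≤ ∑ _i : Fin n, 1 :=
        Finset.sum_le_sum fun i _ => by
          rw [Matrix.of_apply, MvPolynomial.totalDegree_X]
    _ = n := by simp

/-! ### continuity of substitutions -/

/-- Substitutions are continuous on polynomials of bounded degree. -/
theorem aeval_bound {σ τ : Type} [Fintype σ] (D : ℕ) (f : σ → MvPolynomial τ ℂ) :
    ∃ K : ℝ, 0 < K ∧ ∀ R : MvPolynomial σ ℂ, R.totalDegree ≤ D → ∀ ε : ℝ, 0 ≤ ε →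
      (∀ s, ‖R.coeff s‖ ≤ ε) → ∀ s, ‖(MvPolynomial.aeval f R).coeff s‖ ≤ K * ε := by
  classical
  set T : Finset (σ →₀ ℕ) := Finset.Iic (Finsupp.equivFunOnFinite.symm fun _ => D) with hT
  set F : (σ →₀ ℕ) → MvPolynomial τ ℂ := fun t => ∏ i, f i ^ t i with hF
  refine ⟨1 + ∑ t ∈ T, ∑ s ∈ (F t).support, ‖(F t).coeff s‖, by positivity, ?_⟩
  intro R hR ε hε hc s
  have h1 : MvPolynomial.aeval f R = ∑ t ∈ T, R.coeff t • F t := by
    rw [MvPolynomial.aeval_def, MvPolynomial.eval₂_eq']
    have hsub : R.support ⊆ T := by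
      intro t ht
      rw [hT, Finset.mem_Iic]
      intro i
      have h1 := (MvPolynomial.le_totalDegree ht).trans hR
      rw [Finsupp.sum_fintype _ _ (fun _ => rfl)] at h1
      exact (Finset.single_le_sum (f := fun i => t i) (fun _ _ => Nat.zero_le _)
        (mem_univ i)).trans h1
    rw [Finset.sum_subset hsub]
    · refine Finset.sum_congr rfl fun t _ => ?_
      rw [Algebra.smul_def]
    · intro t _ ht
      rw [MvPolynomial.notMem_support_iff.1 ht, map_zero, zero_mul]
  rw [h1, MvPolynomial.coeff_sum]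
  refine (norm_sum_le _ _).trans ?_
  have h2 : ∀ t ∈ T, ‖(R.coeff t • F t).coeff s‖ ≤ (∑ s ∈ (F t).support, ‖(F t).coeff s‖) * ε := by
    intro t _
    rw [MvPolynomial.coeff_smul, smul_eq_mul, norm_mul, mul_comm]
    refine mul_le_mul ?_ (hc t) (norm_nonneg _) (Finset.sum_nonneg fun _ _ => norm_nonneg _)
    by_cases hs : s ∈ (F t).support
    · exact Finset.single_le_sum (f := fun s => ‖(F t).coeff s‖) (fun _ _ => norm_nonneg _) hs
    · rw [MvPolynomial.notMem_support_iff.1 hs, norm_zero]
      exact Finset.sum_nonneg fun _ _ => norm_nonneg _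
  refine (Finset.sum_le_sum h2).trans ?_
  rw [← Finset.sum_mul, add_mul, one_mul]
  linarith

/-- Border representations are stable under affine substitutions. -/
theorem BorderRep.aeval {n m : ℕ} (h : BorderRep n m) {τ : Type} [Fintype τ]
    (f : Fin n × Fin n → MvPolynomial τ ℂ) (hf : ∀ s, (f s).totalDegree ≤ 1) (ε : ℝ)
    (hε : 0 < ε) : ∃ Q : MvPolynomial τ ℂ, DetRep Q m ∧ Q.totalDegree ≤ m ∧
      ∀ s, ‖Q.coeff s - (MvPolynomial.aeval f (permPoly n)).coeff s‖ < ε := by
  obtain ⟨K, hK, H⟩ := aeval_bound (max m n) f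
  obtain ⟨P, hP, hPc⟩ := h (ε / (2 * K)) (by positivity)
  refine ⟨MvPolynomial.aeval f P, hP.subst f hf, (hP.subst f hf).totalDegree_le, fun s => ?_⟩
  have h1 := H (P - permPoly n) ?_ (ε / (2 * K)) (by positivity) ?_ s
  · rw [map_sub, MvPolynomial.coeff_sub] at h1
    refine h1.trans_lt ?_
    have : K * (ε / (2 * K)) = ε / 2 := by field_simp
    rw [this]
    linarith
  · refine (MvPolynomial.totalDegree_sub _ _).trans ?_
    exact max_le_max hP.totalDegree_le (permPoly_totalDegree_le n)
  · intro s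
    rw [MvPolynomial.coeff_sub]
    exact (hPc s).le

/-! ### block matrices -/

theorem permanent_submatrix_equiv' {K m n : Type*} [CommRing K] [Fintype m] [Fintype n]
    [DecidableEq m] [DecidableEq n] (e : m ≃ n) (M : Matrix n n K) :
    (M.submatrix e e).permanent = M.permanent := by
  unfold Matrix.permanent
  refine Fintype.sum_equiv e.permCongr _ _ fun σ => ?_
  rw [← Equiv.prod_comp e]
  refine Finset.prod_congr rfl fun i _ => ?_
  simp [Equiv.permCongr_apply]

theorem permanent_fromBlocks_one' {K m s : Type*} [CommRing K] [Nontrivial K] [Fintype m]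
    [Fintype s] [DecidableEq m] [DecidableEq s] (A : Matrix m m K) :
    (Matrix.fromBlocks A 0 0 (1 : Matrix s s K)).permanent = A.permanent := by
  classical
  unfold Matrix.permanent
  symm
  refine Fintype.sum_of_injective (fun τ : Equiv.Perm m => Equiv.Perm.sumCongr τ (1 : Equiv.Perm s))
    ?_ _ _ ?_ ?_
  · intro τ τ' h
    ext i
    have := congrArg (fun σ : Equiv.Perm (m ⊕ s) => σ (Sum.inl i)) h
    simpa using this
  · intro σ hσ
    by_contra hne
    apply hσ
    have h1 : ∀ j, Matrix.fromBlocks A 0 0 (1 : Matrix s s K) (σ j) j ≠ 0 := by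
      intro j h0
      exact hne (Finset.prod_eq_zero (Finset.mem_univ j) h0)
    have h2 : ∀ j : s, σ (Sum.inr j) = Sum.inr j := by
      intro j
      have := h1 (Sum.inr j)
      rcases hs : σ (Sum.inr j) with i | i
      · rw [hs] at this; simp at this
      · rw [hs] at this
        simp only [Matrix.fromBlocks_apply₂₂, Matrix.one_apply] at this
        by_cases hij : i = j
        · rw [hij]
        · simp [hij] at this
    have h3 : Set.MapsTo σ (Set.range Sum.inl) (Set.range Sum.inl) := by
      rintro _ ⟨i, rfl⟩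
      rcases hs : σ (Sum.inl i) with k | k
      · exact ⟨k, rfl⟩
      · exfalso
        rw [← h2 k] at hs
        exact absurd (σ.injective hs) (by simp)
    obtain ⟨⟨τ1, τ2⟩, hτ⟩ := Equiv.Perm.mem_sumCongrHom_range_of_perm_mapsTo_inl h3
    refine ⟨τ1, ?_⟩
    have h4 : τ2 = 1 := by
      ext j
      have := h2 j
      rw [← hτ] at this
      simpa using this
    rw [← hτ, h4]
    rfl
  · intro τ
    rw [Fintype.prod_sum_type]
    simp

/-- The permanent of size `n' ≤ n` is a projection of the permanent of size `n`. -/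
theorem exists_proj_perm {n n' : ℕ} (hn : n' ≤ n) :
    ∃ f : Fin n × Fin n → MvPolynomial (Fin n' × Fin n') ℂ, (∀ s, (f s).totalDegree ≤ 1) ∧
      MvPolynomial.aeval f (permPoly n) = permPoly n' := by
  obtain ⟨k, rfl⟩ := Nat.exists_eq_add_of_le hn
  refine ⟨fun p => Matrix.fromBlocks (Matrix.of fun i j : Fin n' =>
    (MvPolynomial.X (i, j) : MvPolynomial (Fin n' × Fin n') ℂ)) 0 0
    (1 : Matrix (Fin k) (Fin k) _) (finSumFinEquiv.symm p.1) (finSumFinEquiv.symm p.2), ?_, ?_⟩
  · rintro ⟨i, j⟩
    simp only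
    rcases finSumFinEquiv.symm i with i' | i' <;> rcases finSumFinEquiv.symm j with j' | j'
    · simp [MvPolynomial.totalDegree_X]
    · simp
    · simp
    · rw [Matrix.fromBlocks_apply₂₂, Matrix.one_apply]
      split_ifs
      · simp
      · simp
  · rw [aeval_permPoly]
    have := permanent_submatrix_equiv' (finSumFinEquiv (m := n') (n := k)).symm
      (Matrix.fromBlocks (Matrix.of fun i j : Fin n' =>
        (MvPolynomial.X (i, j) : MvPolynomial (Fin n' × Fin n') ℂ)) 0 0
        (1 : Matrix (Fin k) (Fin k) _))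
    rw [permanent_fromBlocks_one'] at this
    exact this

theorem BorderRep.mono_left {n n' m : ℕ} (h : BorderRep n m) (hn : n' ≤ n) : BorderRep n' m := by
  obtain ⟨f, hf, hf'⟩ := exists_proj_perm hn
  intro ε hε
  obtain ⟨Q, hQ, _, hQc⟩ := h.aeval f hf ε hε
  rw [hf'] at hQc
  exact ⟨Q, hQ, hQc⟩

theorem BorderRep.pos {n m : ℕ} (h : BorderRep n m) (hn : 1 ≤ n) : 1 ≤ m := by
  by_contra hm
  have hm0 : m = 0 := by omega
  subst hm0
  obtain ⟨P, ⟨A₀, L, hA⟩, hP⟩ := h 1 one_pos
  have h1 : P = 1 := by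
    apply MvPolynomial.funext
    intro x
    rw [hA x]
    simp
  have h2 := hP 0
  have h3 : (permPoly n).coeff 0 = 0 := by
    have : Nonempty (Fin n) := ⟨⟨0, hn⟩⟩
    rw [← MvPolynomial.constantCoeff_eq]
    unfold permPoly Matrix.permanent
    rw [map_sum]
    refine Finset.sum_eq_zero fun π _ => ?_
    rw [map_prod]
    refine Finset.prod_eq_zero (mem_univ (⟨0, hn⟩ : Fin n)) ?_
    rw [Matrix.of_apply, MvPolynomial.constantCoeff_X]
  rw [h1, h3] at h2
  simp at h2

end Pool.Agent.Helper24.SQ
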