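import Pool.Agent.Helper24.SQ.Defs

/-!
# MODULE ConstRows: constant rows with prescribed mixed moments
-/

set_option autoImplicit false

namespace Pool.Agent.Helper24.SQ

open Finset

section

variable {J : Type} [Fintype J] [DecidableEq J]

/-- signs -/
def crs (b : Bool) : ℂ := if b then -1 else 1

lemma crs_sq (b : Bool) : crs b * crs b = 1 := by cases b <;> simp [crs]

/-- product of signs -/
noncomputable def crP (A : Finset J) (ε : J → Bool) : ℂ := ∏ l ∈ A, crs (ε l)

omit [Fintype J] [DecidableEq J] in
lemma crP_sq (A : Finset J) (ε : J → Bool) : crP A ε * crP A ε = 1 := by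
  unfold crP
  rw [← Finset.prod_mul_distrib]
  exact Finset.prod_eq_one fun l _ => crs_sq _

lemma crP_sum (A : Finset J) : ∑ ε : J → Bool, crP A ε = if A = ∅ then 2 ^ Fintype.card J else 0 := by
  have h1 : ∀ ε : J → Bool, crP A ε = ∏ l : J, (fun l b => if l ∈ A then crs b else 1) l (ε l) := by
    intro ε
    unfold crP
    rw [Finset.prod_ite_mem, Finset.univ_inter]
  rw [Finset.sum_congr rfl fun ε _ => h1 ε]
  have h2 := Finset.prod_univ_sum (fun _ : J => (Finset.univ : Finset Bool))
    (fun l b => if l ∈ A then crs b else (1 : ℂ))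
  rw [Fintype.piFinset_univ] at h2
  rw [← h2]
  split_ifs with hA
  · subst hA
    simp
  · obtain ⟨l, hl⟩ := Finset.nonempty_iff_ne_empty.2 hA
    refine Finset.prod_eq_zero (Finset.mem_univ l) ?_
    simp [hl, crs]

end

theorem exists_const_rows {J : Type} [Fintype J] [DecidableEq J] (d : ℕ) (μ : Finset J → ℂ) :
    ∃ z : Finset J × (J → Bool) → J → ℂ,
      (∀ T : Finset J, T.Nonempty → T.card < d → ∑ c, ∏ l ∈ T, z c l = μ T) ∧
      (∀ T : Finset J, T.Nonempty → d ≤ T.card → ∑ c, ∏ l ∈ T, z c l = 0) := by
  classical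
  have hroot : ∀ B : Finset J, ∃ c : ℂ, B.Nonempty → c ^ B.card = 2 * μ B / 2 ^ Fintype.card J := by
    intro B
    by_cases hB : B.Nonempty
    · obtain ⟨c, hc⟩ := IsAlgClosed.exists_pow_nat_eq (2 * μ B / 2 ^ Fintype.card J)
        (Finset.card_pos.2 hB)
      exact ⟨c, fun _ => hc⟩
    · exact ⟨0, fun h => absurd h hB⟩
  choose cB hcB using hroot
  let z : Finset J × (J → Bool) → J → ℂ := fun p l =>
    if l ∈ p.1 ∧ p.1.card < d ∧ crP p.1 p.2 = 1 then cB p.1 * crs (p.2 l) else 0
  have key : ∀ T B : Finset J, T.Nonempty →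
      ∑ ε : J → Bool, ∏ l ∈ T, z (B, ε) l = if B = T then (if T.card < d then μ T else 0) else 0 := by
    intro T B hT
    by_cases h : T ⊆ B ∧ B.card < d
    · obtain ⟨hTB, hd⟩ := h
      have h1 : ∀ ε : J → Bool, ∏ l ∈ T, z (B, ε) l =
          cB B ^ T.card / 2 * crP T ε + cB B ^ T.card / 2 * crP (B \ T) ε := by
        intro ε
        have hP : crP T ε * crP (B \ T) ε = crP B ε := by
          unfold crP
          rw [mul_comm]
          exact Finset.prod_sdiff hTB
        have hP2 : crP (B \ T) ε = crP T ε * crP B ε := by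
          rw [← hP, ← mul_assoc, crP_sq, one_mul]
        rcases mul_self_eq_one_iff.1 (crP_sq B ε) with h2 | h2
        · have h3 : ∀ l ∈ T, z (B, ε) l = cB B * crs (ε l) := by
            intro l hl
            simp only [z]
            rw [if_pos ⟨hTB hl, hd, h2⟩]
          rw [Finset.prod_congr rfl h3, Finset.prod_mul_distrib, Finset.prod_const, hP2, h2]
          change cB B ^ T.card * crP T ε = _
          ring
        · obtain ⟨l, hl⟩ := hT
          have h3 : z (B, ε) l = 0 := by
            simp only [z]
            rw [if_neg]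
            rintro ⟨-, -, h4⟩
            rw [h2] at h4
            norm_num at h4
          rw [Finset.prod_eq_zero hl h3, hP2, h2]
          ring
      rw [Finset.sum_congr rfl fun ε _ => h1 ε, Finset.sum_add_distrib, ← Finset.mul_sum,
        ← Finset.mul_sum, crP_sum, crP_sum, if_neg hT.ne_empty, mul_zero, zero_add]
      by_cases hBT : B = T
      · subst hBT
        rw [Finset.sdiff_self, if_pos rfl, if_pos rfl, if_pos hd, hcB B hT]
        have h5 : (2 : ℂ) ^ Fintype.card J ≠ 0 := pow_ne_zero _ two_ne_zero
        field_simp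
      · rw [if_neg hBT, if_neg, mul_zero]
        intro h6
        rw [Finset.sdiff_eq_empty_iff_subset] at h6
        exact hBT (Finset.Subset.antisymm h6 hTB)
    · have h1 : ∀ ε : J → Bool, ∏ l ∈ T, z (B, ε) l = 0 := by
        intro ε
        by_cases hTB : T ⊆ B
        · obtain ⟨l, hl⟩ := hT
          refine Finset.prod_eq_zero hl ?_
          simp only [z]
          rw [if_neg]
          rintro ⟨-, h3, -⟩
          exact h ⟨hTB, h3⟩
        · obtain ⟨l, hl, hlB⟩ := Finset.not_subset.1 hTB
          refine Finset.prod_eq_zero hl ?_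
          simp only [z]
          rw [if_neg]
          rintro ⟨h3, -⟩
          exact hlB h3
      rw [Finset.sum_eq_zero fun ε _ => h1 ε]
      split_ifs with h3 h4
      · subst h3
        exact absurd ⟨Finset.Subset.refl _, h4⟩ h
      · rfl
      · rfl
  have key2 : ∀ T : Finset J, T.Nonempty →
      ∑ c, ∏ l ∈ T, z c l = if T.card < d then μ T else 0 := by
    intro T hT
    rw [Fintype.sum_prod_type, Finset.sum_congr rfl fun B _ => key T B hT,
      Finset.sum_ite_eq' Finset.univ T]
    simp
  refine ⟨z, fun T hT hd => ?_, fun T hT hd => ?_⟩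
  · rw [key2 T hT, if_pos hd]
  · rw [key2 T hT, if_neg (by omega)]

end Pool.Agent.Helper24.SQ
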