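import Pool.Agent.Helper24.SQ.RowLevel

/-!
# MODULE Count: pigeonhole principle for the configurations
-/

set_option autoImplicit false

namespace Pool.Agent.Helper24.SQ

open Finset

/-- Configurations: `a` rows of `2` permutations. -/
abbrev Conf (a d : ℕ) : Type := Fin a → Fin 2 → Equiv.Perm (Fin d)

/-- The entries of a configuration. -/
noncomputable def cval {a d : ℕ} (ζ : ℂ) (σ : Conf a d) (v : Fin a × JJ d) : ℂ := yrow ζ (σ v.1) v.2

theorem cval_injective {a d : ℕ} {ζ : ℂ} (hζ : IsPrimitiveRoot ζ d) :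
    Function.Injective (cval (a := a) (d := d) ζ) := by
  intro σ σ' h
  funext i
  apply yrow_injective hζ
  funext l
  exact congrFun h (i, l)

/-- pigeonhole principle -/
theorem exists_big_fiber {α β : Type} [Fintype α] [Fintype β] [DecidableEq β] [Nonempty β]
    (f : α → β) : ∃ b : β, Fintype.card α ≤ (univ.filter fun x => f x = b).card *
      Fintype.card β := by
  have h : ∑ _b : β, Fintype.card α ≤
      ∑ b : β, (univ.filter fun x => f x = b).card * Fintype.card β := by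
    rw [← Finset.sum_mul, ← Finset.card_eq_sum_card_fiberwise (f := f) (s := univ) (t := univ)
      (fun _ _ => mem_univ _), Finset.sum_const, smul_eq_mul, Finset.card_univ, Finset.card_univ,
      mul_comm]
  obtain ⟨b, _, hb⟩ := Finset.exists_le_of_sum_le univ_nonempty h
  exact ⟨b, hb⟩

/-- encoding of a small finite set by a function -/
theorem exists_code {α : Type} (F : Finset α) (N : ℕ) (h : F.card ≤ N) :
    ∃ g : Fin N → Option α, ∀ x, (∃ k, g k = some x) ↔ x ∈ F := by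
  refine ⟨fun k => F.toList[(k : ℕ)]?, fun x => ?_⟩
  rw [← Finset.mem_toList, List.mem_iff_getElem?]
  constructor
  · rintro ⟨k, hk⟩
    exact ⟨k, hk⟩
  · rintro ⟨k, hk⟩
    have hk' : k < F.toList.length := (List.getElem?_eq_some_iff.1 hk).1
    rw [Finset.length_toList] at hk'
    exact ⟨⟨k, by omega⟩, hk⟩

/-- histogram of the exponents -/
def hist {a d : ℕ} (σ : Conf a d) (T : Finset (JJ d)) (e : Fin d) : Fin (a + 1) :=
  ⟨(univ.filter fun i : Fin a => (∑ l ∈ T, ((σ i l.1 l.2 : Fin d) : ℕ)) % d = (e : ℕ)).card, by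
    have := Finset.card_filter_le (univ : Finset (Fin a))
      (fun i => (∑ l ∈ T, ((σ i l.1 l.2 : Fin d) : ℕ)) % d = (e : ℕ))
    rw [Finset.card_univ, Fintype.card_fin] at this
    omega⟩

theorem moment_eq {a d : ℕ} (hd : 0 < d) {ζ : ℂ} (hζ : IsPrimitiveRoot ζ d) (σ : Conf a d)
    (T : Finset (JJ d)) :
    ∑ i, ∏ l ∈ T, yrow ζ (σ i) l = ∑ e : Fin d, ((hist σ T e : Fin (a + 1)) : ℕ) * ζ ^ (e : ℕ) := by
  have h1 : ∀ i : Fin a, ∏ l ∈ T, yrow ζ (σ i) l =
      ζ ^ ((∑ l ∈ T, ((σ i l.1 l.2 : Fin d) : ℕ)) % d) := by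
    intro i
    unfold yrow
    rw [Finset.prod_pow_eq_pow_sum]
    conv_lhs => rw [← Nat.div_add_mod (∑ l ∈ T, ((σ i l.1 l.2 : Fin d) : ℕ)) d]
    rw [pow_add, pow_mul, hζ.pow_eq_one, one_pow, one_mul]
  rw [Finset.sum_congr rfl fun i _ => h1 i]
  rw [← Finset.sum_fiberwise_of_maps_to (s := (univ : Finset (Fin a))) (t := (univ : Finset (Fin d)))
    (g := fun i => (⟨(∑ l ∈ T, ((σ i l.1 l.2 : Fin d) : ℕ)) % d, Nat.mod_lt _ hd⟩ : Fin d))
    (fun _ _ => mem_univ _)]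
  refine Finset.sum_congr rfl fun e _ => ?_
  have h2 : ∀ i ∈ (univ : Finset (Fin a)).filter (fun i =>
      (⟨(∑ l ∈ T, ((σ i l.1 l.2 : Fin d) : ℕ)) % d, Nat.mod_lt _ hd⟩ : Fin d) = e),
      ζ ^ ((∑ l ∈ T, ((σ i l.1 l.2 : Fin d) : ℕ)) % d) = ζ ^ (e : ℕ) := by
    intro i hi
    rw [mem_filter] at hi
    rw [← hi.2]
  rw [Finset.sum_congr rfl h2, Finset.sum_const, nsmul_eq_mul]
  congr 2
  unfold hist
  simp only
  congr 1
  ext i
  simp only [mem_filter, mem_univ, true_and]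
  rw [Fin.ext_iff]

theorem card_conf (a d : ℕ) : Fintype.card (Conf a d) = d.factorial ^ (2 * a) := by
  simp only [Conf, Fintype.card_fun, Fintype.card_perm, Fintype.card_fin]
  rw [pow_mul]

/-- Many configurations have the same moments, the same set `S` and the same entries outside
`S`. -/
theorem exists_class {a d : ℕ} {ζ : ℂ} (hζ : IsPrimitiveRoot ζ d)
    (S : Conf a d → Finset (Fin a × JJ d)) (hS : ∀ σ, a * (2 * d) ≤ (S σ).card + 4 ^ d) :
    ∃ (Y : Finset (Conf a d)) (S₀ : Finset (Fin a × JJ d)) (μ : Finset (JJ d) → ℂ)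
      (y₀ : Fin a × JJ d → ℂ),
      (∀ σ ∈ Y, S σ = S₀ ∧ (∀ T, ∑ i, ∏ l ∈ T, yrow ζ (σ i) l = μ T) ∧
        ∀ v, v ∉ S₀ → cval ζ σ v = y₀ v) ∧
      d.factorial ^ (2 * a) ≤
        Y.card * ((a + 1) ^ (d * 4 ^ d) * (2 * a * d * d + 1) ^ (4 ^ d)) := by
  classical
  have hc : Fintype.card (Fin a × JJ d) = a * (2 * d) := by
    simp [JJ, Fintype.card_prod]
  have hcode : ∀ σ : Conf a d, ∃ g : Fin (4 ^ d) → Option ((Fin a × JJ d) × Fin d),
      ∀ x, (∃ k, g k = some x) ↔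
        x ∈ ((S σ)ᶜ).image fun v => (v, (σ v.1 v.2.1 v.2.2 : Fin d)) := by
    intro σ
    apply exists_code
    refine Finset.card_image_le.trans ?_
    rw [Finset.card_compl, hc, Nat.sub_le_iff_le_add']
    exact hS σ
  choose g hg using hcode
  have : Nonempty ((Finset (JJ d) → Fin d → Fin (a + 1)) ×
      (Fin (4 ^ d) → Option ((Fin a × JJ d) × Fin d))) := ⟨⟨fun _ _ => 0, fun _ => none⟩⟩
  obtain ⟨b, hb⟩ := exists_big_fiber (fun σ : Conf a d => ((hist σ, g σ) :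
    (Finset (JJ d) → Fin d → Fin (a + 1)) × (Fin (4 ^ d) → Option ((Fin a × JJ d) × Fin d))))
  rw [card_conf] at hb
  have hcard : Fintype.card ((Finset (JJ d) → Fin d → Fin (a + 1)) ×
      (Fin (4 ^ d) → Option ((Fin a × JJ d) × Fin d))) =
      (a + 1) ^ (d * 4 ^ d) * (2 * a * d * d + 1) ^ (4 ^ d) := by
    rw [Fintype.card_prod, Fintype.card_fun, Fintype.card_fun, Fintype.card_fun,
      Fintype.card_option, Fintype.card_prod, hc, Fintype.card_finset]
    simp only [JJ, Fintype.card_prod, Fintype.card_fin]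
    rw [← pow_mul, pow_mul 2 2 d]
    congr 2
    ring
  rw [hcard] at hb
  set Y : Finset (Conf a d) := univ.filter fun x => (hist x, g x) = b with hY
  have hne : Y.Nonempty := by
    rw [← Finset.card_pos]
    by_contra h0
    have h0' : Y.card = 0 := by omega
    rw [h0', zero_mul] at hb
    have := pow_pos (Nat.factorial_pos d) (2 * a)
    omega
  obtain ⟨σ₀, hσ₀⟩ := hne
  have hσ₀' : (hist σ₀, g σ₀) = b := by
    rw [hY, mem_filter] at hσ₀
    exact hσ₀.2
  refine ⟨Y, S σ₀, fun T => ∑ i, ∏ l ∈ T, yrow ζ (σ₀ i) l, cval ζ σ₀, ?_, hb⟩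
  intro σ hσ
  rw [hY, mem_filter] at hσ
  have h1 : (hist σ, g σ) = (hist σ₀, g σ₀) := hσ.2.trans hσ₀'.symm
  have h2 : hist σ = hist σ₀ := congrArg Prod.fst h1
  have h3 : g σ = g σ₀ := congrArg Prod.snd h1
  have h4 : ∀ x, x ∈ (((S σ)ᶜ).image fun v => (v, (σ v.1 v.2.1 v.2.2 : Fin d))) ↔
      x ∈ (((S σ₀)ᶜ).image fun v => (v, (σ₀ v.1 v.2.1 v.2.2 : Fin d))) := by
    intro x
    rw [← hg σ x, ← hg σ₀ x, h3]
  have h5 : ∀ v, v ∉ S σ₀ → v ∉ S σ ∧ σ v.1 v.2.1 v.2.2 = σ₀ v.1 v.2.1 v.2.2 := by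
    intro v hv
    have := (h4 (v, σ₀ v.1 v.2.1 v.2.2)).2 (mem_image_of_mem _ (mem_compl.2 hv))
    rw [mem_image] at this
    obtain ⟨w, hw, hw'⟩ := this
    rw [Prod.mk.injEq] at hw'
    obtain ⟨rfl, hw2⟩ := hw'
    exact ⟨mem_compl.1 hw, hw2⟩
  have h6 : ∀ v, v ∉ S σ → v ∉ S σ₀ := by
    intro v hv
    have := (h4 (v, σ v.1 v.2.1 v.2.2)).1 (mem_image_of_mem _ (mem_compl.2 hv))
    rw [mem_image] at this
    obtain ⟨w, hw, hw'⟩ := this
    rw [Prod.mk.injEq] at hw'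
    obtain ⟨rfl, hw2⟩ := hw'
    exact mem_compl.1 hw
  refine ⟨?_, ?_, ?_⟩
  · ext v
    constructor
    · intro h
      by_contra h'
      exact (h5 v h').1 h
    · intro h
      by_contra h'
      exact h6 v h' h
  · intro T
    rcases Nat.eq_zero_or_pos d with rfl | hd
    · have : T = ∅ := Finset.eq_empty_of_isEmpty T
      subst this
      simp
    · simp only
      rw [moment_eq hd hζ, moment_eq hd hζ, h2]
  · intro v hv
    unfold cval yrow
    rw [(h5 v hv).2]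

end Pool.Agent.Helper24.SQ
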