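import Pool.Agent.Helper24.SQ.IFT
import Pool.Agent.Helper74.Bez.CritPt

/-!
# MODULE Crit: number of nondegenerate critical points on a determinantal hypersurface
-/

set_option autoImplicit false

namespace Pool.Agent.Helper24.SQ

open MvPolynomial

/-- `z` is a nondegenerate critical point of the function `x ↦ x none` on the hypersurface
`F = 0`. -/
def CritPt {ι : Type} [Fintype ι] (F : MvPolynomial (Option ι) ℂ) (z : Option ι → ℂ) : Prop :=
  eval z F = 0 ∧ (∀ v : ι, eval z (pderiv (some v) F) = 0) ∧ eval z (pderiv none F) ≠ 0 ∧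
    ∀ w : ι → ℂ, (∀ v, ∑ v', eval z (pderiv (some v') (pderiv (some v) F)) * w v' = 0) → w = 0

/-- The critical equations. -/
noncomputable def critSys {ι : Type} (F : MvPolynomial (Option ι) ℂ) :
    Option ι → MvPolynomial (Option ι) ℂ :=
  fun o => o.elim F fun v => pderiv (some v) F

theorem critPt_iff {ι : Type} [Fintype ι] (F : MvPolynomial (Option ι) ℂ) (z : Option ι → ℂ) :
    CritPt F z ↔ NonDeg (critSys F) z := by
  constructor
  · rintro ⟨h1, h2, h3, h4⟩
    refine ⟨?_, ?_⟩
    · rintro (_ | v)
      · exact h1
      · exact h2 v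
    · intro u hu
      have e0 := hu none
      simp only [critSys, Option.elim_none] at e0
      rw [Fintype.sum_option, Finset.sum_eq_zero (s := Finset.univ) (f := fun i =>
        eval z (pderiv (some i) F) * u (some i)) (fun v _ => by rw [h2 v, zero_mul]), add_zero] at e0
      have hn : u none = 0 := (mul_eq_zero.1 e0).resolve_left h3
      have hs : (fun v => u (some v)) = 0 := by
        apply h4
        intro v
        have ev := hu (some v)
        simp only [critSys, Option.elim_some] at ev
        rw [Fintype.sum_option, hn, mul_zero, zero_add] at ev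
        exact ev
      funext o
      rcases o with _ | v
      · exact hn
      · exact congrFun hs v
  · rintro ⟨h1, h2⟩
    have h0 : ∀ v : ι, eval z (pderiv (some v) F) = 0 := fun v => h1 (some v)
    refine ⟨h1 none, h0, ?_, ?_⟩
    · intro hn
      classical
      have hd : (Matrix.of fun (o o' : Option ι) => eval z (pderiv o' (critSys F o))).det = 0 := by
        refine Matrix.det_eq_zero_of_row_eq_zero none fun o' => ?_
        rcases o' with _ | v
        · exact hn
        · exact h0 v
      obtain ⟨u, hu0, hu⟩ := Matrix.exists_mulVec_eq_zero_iff.2 hd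
      exact hu0 (h2 u fun o => congrFun hu o)
    · intro w hw
      have h3 := h2 (fun o => o.elim 0 w) (by
        rintro (_ | v)
        · simp only [critSys, Option.elim_none]
          rw [Fintype.sum_option]
          simp only [Option.elim_none, Option.elim_some, mul_zero, zero_add]
          exact Finset.sum_eq_zero fun v _ => by rw [h0 v, zero_mul]
        · simp only [critSys, Option.elim_some]
          rw [Fintype.sum_option]
          simp only [Option.elim_none, Option.elim_some, mul_zero, zero_add]
          exact hw v)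
      funext v
      exact congrFun h3 (some v)

/-- Nondegenerate critical points persist under small perturbations of the polynomial. -/
theorem crit_persist {ι κ : Type} [Fintype ι] [Fintype κ] (F : MvPolynomial (Option ι) ℂ)
    (G : κ → MvPolynomial (Option ι) ℂ) (Z : Finset (Option ι → ℂ)) (hZ : ∀ z ∈ Z, CritPt F z) :
    ∃ ε : ℝ, 0 < ε ∧ ∀ t : κ → ℂ, (∀ k, ‖t k‖ < ε) → ∃ Z' : Finset (Option ι → ℂ),
      Z'.card = Z.card ∧ ∀ z ∈ Z', CritPt (F + ∑ k, t k • G k) z := by
  obtain ⟨ε, hε, h⟩ := persist rfl (critSys F) (fun k => critSys (G k)) Z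
    fun z hz => (critPt_iff F z).1 (hZ z hz)
  refine ⟨ε, hε, fun t ht => ?_⟩
  obtain ⟨Z', hc, hZ'⟩ := h t ht
  refine ⟨Z', hc, fun z hz => (critPt_iff _ z).2 ?_⟩
  have e : critSys (F + ∑ k, t k • G k) = fun j => critSys F j + ∑ k, t k • critSys (G k) j := by
    funext o
    rcases o with _ | v
    · rfl
    · simp only [critSys, Option.elim_some, map_add, map_sum, Derivation.map_smul]
  rw [e]
  exact hZ' z hz

theorem crit_bound {ι : Type} [Fintype ι] (m : ℕ) (F : MvPolynomial (Option ι) ℂ)
    (hF : DetRep F m) (Z : Finset (Option ι → ℂ)) (hZ : ∀ z ∈ Z, CritPt F z) :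
    (Z.card : ℝ) ≤ (4 * Real.exp 1 * m / (Fintype.card ι + 2 : ℕ)) ^ (Fintype.card ι + 2) := by
  obtain ⟨A₀, L, h⟩ := hF
  exact Bez.critPt_bound m F A₀ L h Z hZ

end Pool.Agent.Helper24.SQ
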