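import Pool.Agent.Helper24.SQ.Rook

/-!
# MODULE Deriv: derivatives of rook sums
-/

set_option autoImplicit false
set_option linter.unusedSectionVars false

namespace Pool.Agent.Helper24.SQ

open Finset MvPolynomial

variable {I J : Type} [DecidableEq I] [DecidableEq J]

theorem map_E {K L : Type} [CommSemiring K] [CommSemiring L] (f : K →+* L) (M : I → J → K)
    (A : Finset I) (T : Finset J) : f (E M A T) = E (fun i l => f (M i l)) A T := by
  unfold E
  rw [map_sum]
  exact Finset.sum_congr rfl fun σ _ => map_prod f _ _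

theorem map_RK {K L : Type} [CommSemiring K] [CommSemiring L] (f : K →+* L) (M : I → J → K)
    (A : Finset I) (U : Finset J) (k : ℕ) :
    f (RK M A U k) = RK (fun i l => f (M i l)) A U k := by
  unfold RK
  rw [map_sum]
  exact Finset.sum_congr rfl fun T _ => map_E f M A T

theorem dv_pderiv_E {σ : Type} (v : σ) (M : I → J → MvPolynomial σ ℂ) (T : Finset J) :
    ∀ A : Finset I, pderiv v (E M A T) =
      ∑ l ∈ T, ∑ i ∈ A, E M (A.erase i) (T.erase l) * pderiv v (M i l) := by
  induction T using Finset.induction_on with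
  | empty =>
    intro A
    rw [E_empty, Finset.sum_empty]
    exact Derivation.map_one_eq_zero _
  | insert l T hl ih =>
    intro A
    rw [E_insert M A hl, map_sum, Finset.sum_insert hl, Finset.erase_insert hl]
    have h1 : ∀ i ∈ A, pderiv v (M i l * E M (A.erase i) T) =
        E M (A.erase i) T * pderiv v (M i l) +
          ∑ l' ∈ T, ∑ i' ∈ A.erase i, M i l * (E M ((A.erase i).erase i') (T.erase l') *
            pderiv v (M i' l')) := by
      intro i _
      rw [Derivation.leibniz, ih, smul_eq_mul, smul_eq_mul, add_comm]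
      congr 1
      rw [Finset.mul_sum]
      exact Finset.sum_congr rfl fun l' _ => Finset.mul_sum _ _ _
    rw [Finset.sum_congr rfl h1, Finset.sum_add_distrib, Finset.sum_comm]
    congr 1
    refine Finset.sum_congr rfl fun l' hl' => ?_
    have hne : l ≠ l' := fun h => hl (h ▸ hl')
    have h2 : ∀ i' ∈ A, E M (A.erase i') ((insert l T).erase l') * pderiv v (M i' l') =
        ∑ i ∈ A.erase i', M i l * (E M ((A.erase i').erase i) (T.erase l') *
          pderiv v (M i' l')) := by
      intro i' _
      rw [Finset.erase_insert_of_ne hne,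
        E_insert M _ (fun h => hl (mem_of_mem_erase h)), Finset.sum_mul]
      exact Finset.sum_congr rfl fun i _ => by ring
    rw [Finset.sum_congr rfl h2]
    have h3 : ∀ f : I → I → MvPolynomial σ ℂ, ∑ i ∈ A, ∑ i' ∈ A.erase i, f i i' =
        ∑ i' ∈ A, ∑ i ∈ A.erase i', f i i' := by
      intro f
      refine Finset.sum_comm' ?_
      intro i i'
      simp only [mem_erase]
      tauto
    rw [h3]
    refine Finset.sum_congr rfl fun i' _ => Finset.sum_congr rfl fun i _ => ?_
    rw [Finset.erase_right_comm]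

theorem pderiv_RK {σ : Type} (v : σ) (M : I → J → MvPolynomial σ ℂ) (A : Finset I)
    (U : Finset J) (k : ℕ) :
    pderiv v (RK M A U (k + 1)) =
      ∑ i ∈ A, ∑ l ∈ U, RK M (A.erase i) (U.erase l) k * pderiv v (M i l) := by
  obtain ⟨g, hg⟩ : ∃ g : J → Finset J → MvPolynomial σ ℂ, ∀ l T,
      g l T = ∑ i ∈ A, E M (A.erase i) T * pderiv v (M i l) := ⟨_, fun _ _ => rfl⟩
  have hR : ∑ i ∈ A, ∑ l ∈ U, RK M (A.erase i) (U.erase l) k * pderiv v (M i l) =
      ∑ l ∈ U, ∑ T ∈ powersetCard k (U.erase l), g l T := by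
    rw [Finset.sum_comm]
    refine Finset.sum_congr rfl fun l _ => ?_
    simp only [hg]
    rw [Finset.sum_comm]
    refine Finset.sum_congr rfl fun i _ => ?_
    unfold RK
    rw [Finset.sum_mul]
  have hL : pderiv v (RK M A U (k + 1)) =
      ∑ T ∈ powersetCard (k + 1) U, ∑ l ∈ T, g l (T.erase l) := by
    unfold RK
    rw [map_sum]
    refine Finset.sum_congr rfl fun T _ => ?_
    rw [dv_pderiv_E v M T A]
    exact Finset.sum_congr rfl fun l _ => (hg l _).symm
  rw [hR, hL, Finset.sum_sigma', Finset.sum_sigma']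
  refine Finset.sum_bij' (fun p _ => ⟨p.2, p.1.erase p.2⟩) (fun p _ => ⟨insert p.1 p.2, p.1⟩)
    ?_ ?_ ?_ ?_ ?_
  · rintro ⟨T, l⟩ h
    simp only [mem_sigma, mem_powersetCard] at h ⊢
    obtain ⟨⟨h1, h2⟩, h3⟩ := h
    exact ⟨h1 h3, erase_subset_erase _ h1, by rw [card_erase_of_mem h3, h2]; rfl⟩
  · rintro ⟨l, T⟩ h
    simp only [mem_sigma, mem_powersetCard] at h ⊢
    obtain ⟨h1, h2, h3⟩ := h
    have h4 : l ∉ T := fun h => notMem_erase l U (h2 h)
    exact ⟨⟨insert_subset h1 (h2.trans (erase_subset _ _)), by rw [card_insert_of_notMem h4, h3]⟩,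
      mem_insert_self _ _⟩
  · rintro ⟨T, l⟩ h
    simp only [mem_sigma] at h
    simp only [insert_erase h.2]
  · rintro ⟨l, T⟩ h
    simp only [mem_sigma, mem_powersetCard] at h
    have h4 : l ∉ T := fun h' => notMem_erase l U (h.2.1 h')
    simp only [erase_insert h4]
  · rintro ⟨T, l⟩ _
    rfl

/-- The rook sum of the matrix with the entry `x` in position `(i₀ 0, j₀ 0)` and `1` in the
positions `(i₀ r, j₀ r)`, `1 ≤ r ≤ k`, is `x`. -/
theorem rook_diag {K : Type} [CommRing K] [Fintype I] [Fintype J] {k : ℕ} (i₀ : Fin (k + 1) ↪ I)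
    (j₀ : Fin (k + 1) ↪ J) (x : K) :
    rook (k + 1) (fun i l => ∑ r : Fin (k + 1), if i = i₀ r ∧ l = j₀ r then
      (if r = 0 then x else 1) else 0) = x := by
  set Y : I → J → K := fun i l => ∑ r : Fin (k + 1), if i = i₀ r ∧ l = j₀ r then
      (if r = 0 then x else 1) else 0 with hY
  have hY0 : ∀ i l, (∀ r, l ≠ j₀ r) → Y i l = 0 := by
    intro i l h
    exact Finset.sum_eq_zero fun r _ => if_neg fun h' => h r h'.2
  have hYr : ∀ i r, Y i (j₀ r) = if i = i₀ r then (if r = 0 then x else 1) else 0 := by
    intro i r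
    rw [hY]
    dsimp only
    rw [Finset.sum_eq_single r]
    · simp
    · intro r' _ hr'
      rw [if_neg]
      intro h
      exact hr' (j₀.injective h.2).symm
    · simp
  -- subsets of the columns
  have hE : ∀ (R : Finset (Fin (k + 1))) (A : Finset I), (∀ r ∈ R, i₀ r ∈ A) →
      E Y A (R.image j₀) = ∏ r ∈ R, if r = 0 then x else 1 := by
    intro R
    induction R using Finset.induction_on with
    | empty =>
      intro A _
      rw [image_empty, E_empty, prod_empty]
    | insert r R hr ih =>
      intro A hA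
      rw [image_insert, E_insert Y A, Finset.sum_eq_single (i₀ r), hYr, if_pos rfl,
        Finset.prod_insert hr]
      · congr 1
        refine ih _ fun r' hr' => mem_erase.2 ⟨fun h => ?_, hA r' (mem_insert_of_mem hr')⟩
        exact hr (i₀.injective h ▸ hr')
      · intro i _ hi
        rw [hYr, if_neg hi, zero_mul]
      · intro h
        exact absurd (hA r (mem_insert_self _ _)) h
      · intro h
        obtain ⟨r', hr', h'⟩ := mem_image.1 h
        exact hr (j₀.injective h' ▸ hr')
  unfold rook RK
  rw [Finset.sum_eq_single (univ.image j₀), hE univ univ fun _ _ => mem_univ _,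
    Finset.prod_eq_single 0]
  · simp
  · intro r _ hr
    rw [if_neg hr]
  · simp
  · intro T hT hne
    rw [mem_powersetCard] at hT
    have h1 : ∃ l ∈ T, ∀ r, l ≠ j₀ r := by
      by_contra hcon
      push Not at hcon
      apply hne
      refine Finset.eq_of_subset_of_card_le ?_ ?_
      · intro l hl
        obtain ⟨r, hr⟩ := hcon l hl
        exact mem_image.2 ⟨r, mem_univ _, hr.symm⟩
      · rw [hT.2, card_image_of_injective _ j₀.injective, card_univ, Fintype.card_fin]
    obtain ⟨l, hl, h2⟩ := h1
    rw [E_col Y univ hl]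
    refine Finset.sum_eq_zero fun i _ => ?_
    rw [hY0 i l h2, zero_mul]
  · intro h
    exfalso
    apply h
    rw [mem_powersetCard]
    exact ⟨subset_univ _, by rw [card_image_of_injective _ j₀.injective, card_univ,
      Fintype.card_fin]⟩

end Pool.Agent.Helper24.SQ
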