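import Pool.Agent.Helper24.SQ.Defs

/-!
# MODULE RowLevel: elementary symmetric functions of rows in which every `d`-th root of unity
occurs exactly twice
-/

set_option autoImplicit false

namespace Pool.Agent.Helper24.SQ

open Finset

/-- Columns of a group. -/
abbrev JJ (d : ℕ) : Type := Fin 2 × Fin d

/-- A row: the two halves are given by two permutations of the `d`-th roots of unity. -/
noncomputable def yrow {d : ℕ} (ζ : ℂ) (σ : Fin 2 → Equiv.Perm (Fin d)) (l : JJ d) : ℂ :=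
  ζ ^ ((σ l.1 l.2 : Fin d) : ℕ)

theorem yrow_pow {d : ℕ} {ζ : ℂ} (hζ : IsPrimitiveRoot ζ d) (σ : Fin 2 → Equiv.Perm (Fin d))
    (l : JJ d) : yrow ζ σ l ^ d = 1 := by
  unfold yrow
  rw [← pow_mul, mul_comm, pow_mul, hζ.pow_eq_one, one_pow]

theorem yrow_ne_zero {d : ℕ} {ζ : ℂ} (hζ : IsPrimitiveRoot ζ d) (σ : Fin 2 → Equiv.Perm (Fin d))
    (l : JJ d) : yrow ζ σ l ≠ 0 := by
  intro h
  have h1 := yrow_pow hζ σ l
  have hd : d ≠ 0 := by
    rintro rfl
    exact l.2.elim0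
  rw [h, zero_pow hd] at h1
  exact zero_ne_one h1

theorem yrow_eq_iff {d : ℕ} {ζ : ℂ} (hζ : IsPrimitiveRoot ζ d) (σ σ' : Fin 2 → Equiv.Perm (Fin d))
    (l l' : JJ d) : yrow ζ σ l = yrow ζ σ' l' ↔ σ l.1 l.2 = σ' l'.1 l'.2 := by
  constructor
  · intro h
    exact Fin.ext (hζ.pow_inj (σ l.1 l.2).2 (σ' l'.1 l'.2).2 h)
  · intro h
    unfold yrow
    rw [h]

theorem yrow_injective {d : ℕ} {ζ : ℂ} (hζ : IsPrimitiveRoot ζ d) :
    Function.Injective (fun σ : Fin 2 → Equiv.Perm (Fin d) => (yrow ζ σ : JJ d → ℂ)) := by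
  intro σ σ' h
  funext a
  refine Equiv.ext fun j => ?_
  exact (yrow_eq_iff hζ σ σ' (a, j) (a, j)).1 (congrFun h (a, j))

/-- The involution exchanging the two columns in which the same root of unity occurs. -/
theorem yrow_partner {d : ℕ} {ζ : ℂ} (hζ : IsPrimitiveRoot ζ d)
    (σ : Fin 2 → Equiv.Perm (Fin d)) (l : JJ d) :
    ∃ l' : JJ d, l' ≠ l ∧ yrow ζ σ l' = yrow ζ σ l ∧
      ∀ l'' : JJ d, l'' ≠ l → yrow ζ σ l'' = yrow ζ σ l → l'' = l' := by
  obtain ⟨h, j⟩ := l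
  refine ⟨(1 - h, (σ (1 - h)).symm (σ h j)), ?_, ?_, ?_⟩
  · intro hh
    have := congrArg Prod.fst hh
    revert this
    simp only
    fin_cases h <;> decide
  · rw [yrow_eq_iff hζ]
    simp
  · rintro ⟨h', j'⟩ hne heq
    rw [yrow_eq_iff hζ] at heq
    simp only at heq
    have hh : h' ≠ h := by
      rintro rfl
      exact hne (by rw [(σ h').injective heq])
    have hh' : h' = 1 - h := by
      revert hh
      fin_cases h <;> fin_cases h' <;> decide
    subst hh'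
    rw [← heq]
    simp

/-! ### generating functions -/

section gen

open Polynomial

/-- generating function of the elementary symmetric functions -/
noncomputable def gen {J : Type} (S : Finset J) (y : J → ℂ) : ℂ[X] := ∏ k ∈ S, (1 + C (y k) * X)

theorem coeff_gen {J : Type} [DecidableEq J] (S : Finset J) (y : J → ℂ) (m : ℕ) :
    (gen S y).coeff m = ∑ T ∈ powersetCard m S, ∏ k ∈ T, y k := by
  unfold gen
  rw [Finset.prod_one_add, Polynomial.finsetSum_coeff, Finset.powersetCard_eq_filter,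
    Finset.sum_filter]
  refine Finset.sum_congr rfl fun T _ => ?_
  rw [Finset.prod_mul_distrib, Finset.prod_const, ← map_prod C,
    Polynomial.coeff_C_mul_X_pow]
  simp only [eq_comm]

theorem gen_all {d : ℕ} {ζ : ℂ} (hd : 0 < d) (hζ : IsPrimitiveRoot ζ d) :
    ∏ j : Fin d, (1 + C (ζ ^ (j : ℕ)) * X : ℂ[X]) = 1 - (-X) ^ d := by
  have hζ' : IsPrimitiveRoot (C ζ : ℂ[X]) d := hζ.map_of_injective Polynomial.C_injective
  have h1 := hζ'.pow_sub_pow_eq_prod_sub_mul (1 : ℂ[X]) (-X) hd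
  rw [one_pow] at h1
  rw [h1, Fin.prod_univ_eq_prod_range (fun j => (1 + C (ζ ^ j) * X : ℂ[X])) d]
  symm
  have h2 : nthRootsFinset d (1 : ℂ[X]) = (range d).image fun j => (C ζ : ℂ[X]) ^ j := by
    symm
    apply Finset.eq_of_subset_of_card_le
    · intro x hx
      rw [mem_image] at hx
      obtain ⟨j, _, rfl⟩ := hx
      rw [mem_nthRootsFinset hd, ← pow_mul, mul_comm, pow_mul, hζ'.pow_eq_one, one_pow]
    · rw [hζ'.card_nthRootsFinset, card_image_of_injOn, card_range]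
      intro a ha b hb hab
      simp only [coe_range, Set.mem_Iio] at ha hb
      exact hζ'.pow_inj ha hb hab
  rw [h2, Finset.prod_image]
  · refine Finset.prod_congr rfl fun j _ => ?_
    rw [C_pow]
    ring
  · intro a ha b hb hab
    simp only [coe_range, Set.mem_Iio] at ha hb
    exact hζ'.pow_inj ha hb hab

theorem gen_univ {d : ℕ} {ζ : ℂ} (hd : 0 < d) (hζ : IsPrimitiveRoot ζ d)
    (σ : Fin 2 → Equiv.Perm (Fin d)) : gen univ (yrow ζ σ) = (1 - (-X) ^ d) ^ 2 := by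
  unfold gen
  rw [Fintype.prod_prod_type]
  have : ∀ a : Fin 2, ∏ j : Fin d, (1 + C (yrow ζ σ (a, j)) * X : ℂ[X]) = 1 - (-X) ^ d := by
    intro a
    rw [← gen_all hd hζ, ← Equiv.prod_comp (σ a) (fun j : Fin d => (1 + C (ζ ^ (j : ℕ)) * X : ℂ[X]))]
    rfl
  simp_rw [this]
  rw [Finset.prod_const]
  rfl

/-- geometric sum -/
noncomputable def geo (d : ℕ) (y : ℂ) : ℂ[X] := ∑ j ∈ range d, (C (-y) * X) ^ j

theorem mul_geo {d : ℕ} {y : ℂ} (hy : y ^ d = 1) :
    (1 + C y * X) * geo d y = 1 - (-X : ℂ[X]) ^ d := by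
  have h := mul_neg_geom_sum (C (-y) * X : ℂ[X]) d
  have h1 : (C (-y) * X : ℂ[X]) ^ d = (-X) ^ d := by
    have : (C (-y) * X : ℂ[X]) = C y * (-X) := by
      rw [C_neg]; ring
    rw [this, mul_pow, ← C_pow, hy, C_1, one_mul]
  rw [h1] at h
  rw [← h]
  unfold geo
  rw [C_neg]
  ring

theorem coeff_geo (d : ℕ) (y : ℂ) (m : ℕ) : (geo d y).coeff m = if m < d then (-y) ^ m else 0 := by
  unfold geo
  rw [Polynomial.finsetSum_coeff]
  simp_rw [mul_pow, ← C_pow, Polynomial.coeff_C_mul_X_pow]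
  rw [Finset.sum_ite_eq]
  simp only [mem_range]

theorem lin_ne_zero (y : ℂ) : (1 + C y * X : ℂ[X]) ≠ 0 := by
  intro h
  have := congrArg (fun p : ℂ[X] => p.coeff 0) h
  simp at this

theorem one_sub_ne_zero {d : ℕ} (hd : 0 < d) : (1 - (-X : ℂ[X]) ^ d) ≠ 0 := by
  intro h
  have := congrArg (fun p : ℂ[X] => p.eval 0) h
  simp [hd.ne'] at this

theorem gen_erase {d : ℕ} {ζ : ℂ} (hd : 0 < d) (hζ : IsPrimitiveRoot ζ d)
    (σ : Fin 2 → Equiv.Perm (Fin d)) (l : JJ d) :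
    gen (univ.erase l) (yrow ζ σ) = (1 - (-X) ^ d) * geo d (yrow ζ σ l) := by
  apply mul_left_cancel₀ (lin_ne_zero (yrow ζ σ l))
  have h1 : (1 + C (yrow ζ σ l) * X) * gen (univ.erase l) (yrow ζ σ) = gen univ (yrow ζ σ) :=
    Finset.mul_prod_erase univ (fun k => (1 + C (yrow ζ σ k) * X : ℂ[X])) (mem_univ l)
  rw [h1, gen_univ hd hζ, ← mul_geo (yrow_pow hζ σ l)]
  ring

theorem gen_erase_erase {d : ℕ} {ζ : ℂ} (hd : 0 < d) (hζ : IsPrimitiveRoot ζ d)
    (σ : Fin 2 → Equiv.Perm (Fin d)) {l l' : JJ d} (h : l ≠ l') :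
    gen ((univ.erase l).erase l') (yrow ζ σ) = geo d (yrow ζ σ l) * geo d (yrow ζ σ l') := by
  apply mul_left_cancel₀ (lin_ne_zero (yrow ζ σ l'))
  have h1 : (1 + C (yrow ζ σ l') * X) * gen ((univ.erase l).erase l') (yrow ζ σ) =
      gen (univ.erase l) (yrow ζ σ) :=
    Finset.mul_prod_erase (univ.erase l) (fun k => (1 + C (yrow ζ σ k) * X : ℂ[X]))
      (mem_erase.2 ⟨h.symm, mem_univ l'⟩)
  rw [h1, gen_erase hd hζ, ← mul_geo (yrow_pow hζ σ l')]
  ring

end gen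

theorem esymm_erase {d : ℕ} (hd : 2 ≤ d) {ζ : ℂ} (hζ : IsPrimitiveRoot ζ d)
    (σ : Fin 2 → Equiv.Perm (Fin d)) (l : JJ d) :
    ∑ T ∈ powersetCard d (univ.erase l), ∏ k ∈ T, yrow ζ σ k = (-1) ^ (d + 1) := by
  rw [← coeff_gen, gen_erase (by omega) hζ, sub_mul, one_mul, Polynomial.coeff_sub, coeff_geo,
    if_neg (lt_irrefl _), neg_pow, mul_assoc]
  have h1 : ((-1 : Polynomial ℂ) ^ d * (Polynomial.X ^ d * geo d (yrow ζ σ l))).coeff d =
      (-1) ^ d := by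
    have : (-1 : Polynomial ℂ) ^ d = Polynomial.C ((-1) ^ d) := by simp
    rw [this, Polynomial.coeff_C_mul, Polynomial.coeff_X_pow_mul', if_pos le_rfl, Nat.sub_self,
      coeff_geo, if_pos (by omega)]
    simp
  rw [h1]
  ring

theorem esymm_erase_erase {d : ℕ} (hd : 2 ≤ d) {ζ : ℂ} (hζ : IsPrimitiveRoot ζ d)
    (σ : Fin 2 → Equiv.Perm (Fin d)) {l l' : JJ d} (h : l ≠ l') :
    ∑ T ∈ powersetCard (d - 1) ((univ.erase l).erase l'), ∏ k ∈ T, yrow ζ σ k =
      if yrow ζ σ l = yrow ζ σ l' then (-1) ^ (d - 1) * (d : ℂ) * yrow ζ σ l ^ (d - 1) else 0 := by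
  rw [← coeff_gen, gen_erase_erase (by omega) hζ σ h, Polynomial.coeff_mul]
  have h1 : ∀ x ∈ antidiagonal (d - 1), (geo d (yrow ζ σ l)).coeff x.1 *
      (geo d (yrow ζ σ l')).coeff x.2 = (-yrow ζ σ l) ^ x.1 * (-yrow ζ σ l') ^ x.2 := by
    intro x hx
    rw [Finset.HasAntidiagonal.mem_antidiagonal] at hx
    rw [coeff_geo, coeff_geo, if_pos (by omega), if_pos (by omega)]
  rw [Finset.sum_congr rfl h1]
  split_ifs with hy
  · rw [← hy]
    have h2 : ∀ x ∈ antidiagonal (d - 1), (-yrow ζ σ l) ^ x.1 * (-yrow ζ σ l) ^ x.2 =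
        (-yrow ζ σ l) ^ (d - 1) := by
      intro x hx
      rw [Finset.HasAntidiagonal.mem_antidiagonal] at hx
      rw [← pow_add, hx]
    rw [Finset.sum_congr rfl h2, Finset.sum_const, Finset.Nat.card_antidiagonal, nsmul_eq_mul,
      neg_pow, Nat.sub_add_cancel (by omega : 1 ≤ d)]
    ring
  · rw [Finset.Nat.sum_antidiagonal_eq_sum_range_succ
      (fun i j => (-yrow ζ σ l) ^ i * (-yrow ζ σ l') ^ j) (d - 1)]
    have h3 := (Commute.all (-yrow ζ σ l) (-yrow ζ σ l')).geom_sum₂_mul d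
    have h4 : -yrow ζ σ l - -yrow ζ σ l' ≠ 0 := by
      intro h
      apply hy
      linear_combination -h
    have h5 : (-yrow ζ σ l) ^ d - (-yrow ζ σ l') ^ d = 0 := by
      rw [neg_pow, neg_pow (yrow ζ σ l'), yrow_pow hζ, yrow_pow hζ, sub_self]
    rw [h5] at h3
    have h6 := (mul_eq_zero.1 h3).resolve_right h4
    rw [Nat.succ_eq_add_one, Nat.sub_add_cancel (by omega : 1 ≤ d)]
    exact h6

end Pool.Agent.Helper24.SQ
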