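import Pool.Agent.Helper24.SQ.Rook
import Pool.Agent.Helper24.SQ.RowLevel

/-!
# MODULE GradHess: gradient and Hessian of the rook sum `rook (d + 1)` at our special matrices

`MM ζ σ z` is the matrix with the rows `yrow ζ (σ i)`, `i < a`, and the constant rows `z c`.
-/

set_option autoImplicit false
set_option linter.unusedSectionVars false

namespace Pool.Agent.Helper24.SQ

open Finset

/-- The matrix with variable rows `yrow ζ (σ i)` and constant rows `z c`. -/
noncomputable def MM {a d : ℕ} {C : Type} (ζ : ℂ) (σ : Fin a → Fin 2 → Equiv.Perm (Fin d))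
    (z : C → JJ d → ℂ) : Fin a ⊕ C → JJ d → ℂ :=
  Sum.elim (fun i => yrow ζ (σ i)) z

/-- The conditions on the moments. -/
structure Mom {a d : ℕ} {C : Type} [Fintype C] (ζ : ℂ) (σ : Fin a → Fin 2 → Equiv.Perm (Fin d))
    (z : C → JJ d → ℂ) : Prop where
  lt : ∀ T : Finset (JJ d), T.Nonempty → T.card < d → ∑ i, ∏ l ∈ T, MM ζ σ z i l = 0
  eq : ∀ T : Finset (JJ d), T.card = d → ∑ c, ∏ l ∈ T, z c l = 0

variable {a d : ℕ} {C : Type} [Fintype C] [DecidableEq C] {ζ : ℂ}
  {σ : Fin a → Fin 2 → Equiv.Perm (Fin d)} {z : C → JJ d → ℂ}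

/-- The gradient. -/
theorem grad (hd : 2 ≤ d) (hζ : IsPrimitiveRoot ζ d) (h : Mom ζ σ z) (i : Fin a) (l : JJ d) :
    RK (MM ζ σ z) (univ.erase (Sum.inl i)) (univ.erase l) d =
      ((d - 1).factorial : ℂ) * ((a : ℂ) - d) := by
  unfold RK
  have h1 : ∀ T ∈ powersetCard d ((univ : Finset (JJ d)).erase l),
      E (MM ζ σ z) (univ.erase (Sum.inl i)) T =
        (-1) ^ (d - 1) * ((d - 1).factorial : ℂ) * ∑ i' : Fin a, ∏ k ∈ T, yrow ζ (σ i') k +
        (-1) ^ d * (d.factorial : ℂ) * ∏ k ∈ T, yrow ζ (σ i) k := by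
    intro T hT
    rw [mem_powersetCard] at hT
    have hne : T.Nonempty := by
      rw [← Finset.card_pos]
      omega
    rw [E_erase_eq (MM ζ σ z) h.lt (Sum.inl i) hne hT.2, Fintype.sum_sum_type]
    have h2 : ∑ c, ∏ k ∈ T, MM ζ σ z (Sum.inr c) k = 0 := h.eq T hT.2
    rw [h2, add_zero]
    rfl
  rw [Finset.sum_congr rfl h1, Finset.sum_add_distrib, ← Finset.mul_sum, ← Finset.mul_sum,
    Finset.sum_comm]
  simp_rw [esymm_erase hd hζ]
  rw [Finset.sum_const, card_univ, Fintype.card_fin, nsmul_eq_mul]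
  obtain ⟨e, rfl⟩ : ∃ e, d = e + 1 := ⟨d - 1, by omega⟩
  rw [Nat.add_sub_cancel, Nat.factorial_succ]
  have h3 : ((-1 : ℂ) ^ e) * (-1) ^ e = 1 := by
    rw [← mul_pow]; norm_num
  push_cast
  linear_combination ((e.factorial : ℂ) * a - (e.factorial : ℂ) * (e + 1)) * h3

/-- The Hessian. -/
noncomputable def Hess (ζ : ℂ) (σ : Fin a → Fin 2 → Equiv.Perm (Fin d)) (z : C → JJ d → ℂ) :
    Matrix (Fin a × JJ d) (Fin a × JJ d) ℂ :=
  fun p q => if p.1 ≠ q.1 ∧ p.2 ≠ q.2 then
    RK (MM ζ σ z) ((univ.erase (Sum.inl p.1)).erase (Sum.inl q.1))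
      ((univ.erase p.2).erase q.2) (d - 1) else 0

theorem Hess_symm (ζ : ℂ) (σ : Fin a → Fin 2 → Equiv.Perm (Fin d)) (z : C → JJ d → ℂ) :
    (Hess ζ σ z).IsSymm := by
  ext p q
  simp only [Matrix.transpose_apply, Hess]
  rw [Finset.erase_right_comm (a := Sum.inl q.1), Finset.erase_right_comm (a := q.2)]
  simp only [ne_comm]

section pairs

variable {J : Type} [Fintype J] [DecidableEq J]

theorem pair_sum {l l' : J} (h : l ≠ l') (n : ℕ) (f g : Finset J → ℂ) :
    ∑ W : Finset J, (if l ∈ W then f (W.erase l) else 0) *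
      ∑ W' : Finset J, (if Disjoint W W' ∧ W.card + W'.card = n + 2 then (1 : ℂ) else 0) *
        (if l' ∈ W' then g (W'.erase l') else 0) =
      ∑ T ∈ powersetCard n ((univ.erase l).erase l'), ∑ U ∈ T.powerset, f (T \ U) * g U := by
  simp_rw [Finset.mul_sum]
  rw [← Finset.sum_product', Finset.sum_sigma']
  have h1 : ∀ x : Finset J × Finset J, (if l ∈ x.1 then f (x.1.erase l) else 0) *
      ((if Disjoint x.1 x.2 ∧ x.1.card + x.2.card = n + 2 then (1 : ℂ) else 0) *
        (if l' ∈ x.2 then g (x.2.erase l') else 0)) =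
      if (l ∈ x.1 ∧ l' ∈ x.2 ∧ Disjoint x.1 x.2 ∧ x.1.card + x.2.card = n + 2) then
        f (x.1.erase l) * g (x.2.erase l') else 0 := by
    intro x
    by_cases h1 : l ∈ x.1 <;> by_cases h2 : l' ∈ x.2 <;>
      by_cases h3 : Disjoint x.1 x.2 ∧ x.1.card + x.2.card = n + 2 <;>
      simp [h1, h2, h3]
  simp_rw [h1]
  rw [← Finset.sum_filter]
  symm
  refine Finset.sum_bij'
    (fun x _ => (insert l (x.1 \ x.2), insert l' x.2))
    (fun x _ => ⟨x.1.erase l ∪ x.2.erase l', x.2.erase l'⟩) ?_ ?_ ?_ ?_ ?_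
  · rintro ⟨T, U⟩ hx
    simp only [mem_sigma, mem_powersetCard, mem_powerset] at hx
    obtain ⟨⟨hT, hTn⟩, hU⟩ := hx
    have hlT : l ∉ T := fun h' => by
      have := hT h'
      simp at this
    have hlT' : l' ∉ T := fun h' => by
      have := hT h'
      simp at this
    have hlU' : l' ∉ U := fun h' => hlT' (hU h')
    have hlU : l ∉ U := fun h' => hlT (hU h')
    have hl2 : l ∉ T \ U := fun h' => hlT (mem_sdiff.1 h').1
    have hl3 : l' ∉ T \ U := fun h' => hlT' (mem_sdiff.1 h').1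
    simp only [mem_filter, mem_product, mem_univ, true_and, and_self, mem_insert_self]
    constructor
    · rw [disjoint_insert_left, disjoint_insert_right]
      refine ⟨?_, hl3, sdiff_disjoint⟩
      rw [mem_insert, not_or]
      exact ⟨h, hlU⟩
    · rw [card_insert_of_notMem hl2, card_insert_of_notMem hlU', card_sdiff_of_subset hU, hTn]
      have := card_le_card hU
      omega
  · rintro ⟨W, W'⟩ hx
    simp only [mem_filter, mem_product, mem_univ, true_and, and_self] at hx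
    obtain ⟨hlW, hlW', hdis, hcard⟩ := hx
    simp only [mem_sigma, mem_powersetCard, mem_powerset]
    refine ⟨⟨?_, ?_⟩, subset_union_right⟩
    · intro x hx
      rw [mem_union, mem_erase, mem_erase] at hx
      rw [mem_erase, mem_erase]
      rcases hx with hx | hx
      · refine ⟨?_, hx.1, mem_univ _⟩
        rintro rfl
        exact disjoint_left.1 hdis hx.2 hlW'
      · refine ⟨hx.1, ?_, mem_univ _⟩
        rintro rfl
        exact disjoint_left.1 hdis hlW hx.2
    · rw [card_union_of_disjoint (hdis.mono (erase_subset _ _) (erase_subset _ _)),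
        card_erase_of_mem hlW, card_erase_of_mem hlW']
      have h2 : 0 < W.card := card_pos.2 ⟨_, hlW⟩
      have h3 : 0 < W'.card := card_pos.2 ⟨_, hlW'⟩
      omega
  · rintro ⟨T, U⟩ hx
    simp only [mem_sigma, mem_powersetCard, mem_powerset] at hx
    obtain ⟨⟨hT, hTn⟩, hU⟩ := hx
    have hlT : l ∉ T := fun h' => by
      have := hT h'
      simp at this
    have hlT' : l' ∉ T := fun h' => by
      have := hT h'
      simp at this
    have hlU' : l' ∉ U := fun h' => hlT' (hU h')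
    have hl2 : l ∉ T \ U := fun h' => hlT (mem_sdiff.1 h').1
    simp only [erase_insert hl2, erase_insert hlU']
    congr 1
    exact sdiff_union_of_subset hU
  · rintro ⟨W, W'⟩ hx
    simp only [mem_filter, mem_product, mem_univ, true_and, and_self] at hx
    obtain ⟨hlW, hlW', hdis, hcard⟩ := hx
    simp only [Prod.mk.injEq]
    refine ⟨?_, insert_erase hlW'⟩
    rw [union_sdiff_cancel_right (hdis.mono (erase_subset _ _) (erase_subset _ _)),
      insert_erase hlW]
  · rintro ⟨T, U⟩ hx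
    simp only [mem_sigma, mem_powersetCard, mem_powerset] at hx
    obtain ⟨⟨hT, hTn⟩, hU⟩ := hx
    have hlT : l ∉ T := fun h' => by
      have := hT h'
      simp at this
    have hlT' : l' ∉ T := fun h' => by
      have := hT h'
      simp at this
    have hlU' : l' ∉ U := fun h' => hlT' (hU h')
    have hl2 : l ∉ T \ U := fun h' => hlT (mem_sdiff.1 h').1
    simp only [erase_insert hl2, erase_insert hlU']

theorem pair_sum_self (l : J) (n : ℕ) (f g : Finset J → ℂ) :
    ∑ W : Finset J, (if l ∈ W then f (W.erase l) else 0) *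
      ∑ W' : Finset J, (if Disjoint W W' ∧ W.card + W'.card = n + 2 then (1 : ℂ) else 0) *
        (if l ∈ W' then g (W'.erase l) else 0) = 0 := by
  refine Finset.sum_eq_zero fun W _ => ?_
  by_cases h1 : l ∈ W
  · rw [Finset.sum_eq_zero, mul_zero]
    intro W' _
    by_cases h2 : l ∈ W'
    · rw [if_neg, zero_mul]
      rintro ⟨h3, _⟩
      exact disjoint_left.1 h3 h1 h2
    · rw [if_neg h2, mul_zero]
  · rw [if_neg h1, zero_mul]

theorem sum_factorials (T : Finset J) :
    ∑ U ∈ T.powerset, ((T \ U).card.factorial : ℂ) * (U.card.factorial : ℂ) =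
      ((T.card + 1).factorial : ℂ) := by
  have h1 : ∀ U ∈ T.powerset, ((T \ U).card.factorial : ℂ) * (U.card.factorial : ℂ) =
      ((T.card - U.card).factorial : ℂ) * (U.card.factorial : ℂ) := by
    intro U hU
    rw [mem_powerset] at hU
    rw [card_sdiff_of_subset hU]
  have h0 := Finset.sum_powerset_apply_card
    (fun k : ℕ => (((T.card - k).factorial : ℂ) * (k.factorial : ℂ))) (x := T)
  rw [Finset.sum_congr rfl h1, h0]
  have h2 : ∀ m ∈ range (T.card + 1), T.card.choose m •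
      (((T.card - m).factorial : ℂ) * (m.factorial : ℂ)) = (T.card.factorial : ℂ) := by
    intro m hm
    rw [mem_range] at hm
    rw [nsmul_eq_mul, ← Nat.choose_mul_factorial_mul_factorial (show m ≤ T.card by omega)]
    push_cast
    ring
  rw [Finset.sum_congr rfl h2, Finset.sum_const, card_range, nsmul_eq_mul, Nat.factorial_succ]
  push_cast
  ring

end pairs

/-- left factor -/
noncomputable def Vm (ζ : ℂ) (σ : Fin a → Fin 2 → Equiv.Perm (Fin d)) :
    Matrix (Fin a × JJ d) (Finset (JJ d)) ℂ :=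
  fun p W => if p.2 ∈ W then
    (((W.erase p.2).card.factorial : ℂ) * ∏ k ∈ W.erase p.2, yrow ζ (σ p.1) k) else 0

/-- right factor -/
noncomputable def Xm (ζ : ℂ) (σ : Fin a → Fin 2 → Equiv.Perm (Fin d)) :
    Matrix (Finset (JJ d)) (Fin a × JJ d) ℂ :=
  fun W q => -(-1) ^ (d - 1) * ∑ W' : Finset (JJ d),
    (if Disjoint W W' ∧ W.card + W'.card = (d - 1) + 2 then (1 : ℂ) else 0) * Vm ζ σ q W'

/-- the main part -/
noncomputable def Dm (ζ : ℂ) (σ : Fin a → Fin 2 → Equiv.Perm (Fin d)) :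
    Matrix (Fin a × JJ d) (Fin a × JJ d) ℂ :=
  fun p q => if p.1 = q.1 ∧ p.2 ≠ q.2 ∧ yrow ζ (σ p.1) p.2 = yrow ζ (σ q.1) q.2 then
    -((d : ℂ) * (d.factorial : ℂ) * yrow ζ (σ p.1) p.2 ^ (d - 1)) else 0

theorem VX_apply (p q : Fin a × JJ d) (h : p.2 ≠ q.2) :
    (Vm ζ σ * Xm ζ σ) p q = -(-1) ^ (d - 1) *
      ∑ T ∈ powersetCard (d - 1) ((univ.erase p.2).erase q.2), ∑ U ∈ T.powerset,
        (((T \ U).card.factorial : ℂ) * ∏ k ∈ T \ U, yrow ζ (σ p.1) k) *
          ((U.card.factorial : ℂ) * ∏ k ∈ U, yrow ζ (σ q.1) k) := by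
  rw [← pair_sum h (d - 1) (fun V => ((V.card.factorial : ℂ) * ∏ k ∈ V, yrow ζ (σ p.1) k))
    (fun V => ((V.card.factorial : ℂ) * ∏ k ∈ V, yrow ζ (σ q.1) k)), Matrix.mul_apply,
    Finset.mul_sum]
  refine Finset.sum_congr rfl fun W _ => ?_
  unfold Vm Xm Vm
  ring

theorem VX_apply_self (p q : Fin a × JJ d) (h : p.2 = q.2) :
    (Vm ζ σ * Xm ζ σ) p q = 0 := by
  have h1 := pair_sum_self q.2 (d - 1)
    (fun V => ((V.card.factorial : ℂ) * ∏ k ∈ V, yrow ζ (σ p.1) k))
    (fun V => ((V.card.factorial : ℂ) * ∏ k ∈ V, yrow ζ (σ q.1) k))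
  have h2 : (Vm ζ σ * Xm ζ σ) p q = -(-1) ^ (d - 1) * 0 := by
    rw [← h1, Matrix.mul_apply, Finset.mul_sum]
    refine Finset.sum_congr rfl fun W _ => ?_
    unfold Vm Xm Vm
    rw [h]
    ring
  rw [h2, mul_zero]

theorem Hess_add (hd : 2 ≤ d) (hζ : IsPrimitiveRoot ζ d) (h : Mom ζ σ z) :
    Hess ζ σ z + Vm ζ σ * Xm ζ σ = Dm ζ σ := by
  ext p q
  rw [Matrix.add_apply]
  by_cases h2 : p.2 = q.2
  · rw [VX_apply_self p q h2]
    simp [Hess, Dm, h2]
  · rw [VX_apply p q h2]
    by_cases h1 : p.1 = q.1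
    · rw [Hess, if_neg (fun h' => h'.1 h1), zero_add]
      have h3 : ∀ T ∈ powersetCard (d - 1) (((univ : Finset (JJ d)).erase p.2).erase q.2),
          ∑ U ∈ T.powerset, (((T \ U).card.factorial : ℂ) * ∏ k ∈ T \ U, yrow ζ (σ p.1) k) *
          ((U.card.factorial : ℂ) * ∏ k ∈ U, yrow ζ (σ q.1) k) =
          (d.factorial : ℂ) * ∏ k ∈ T, yrow ζ (σ p.1) k := by
        intro T hT
        rw [mem_powersetCard] at hT
        have h4 := sum_factorials T
        rw [hT.2, Nat.sub_add_cancel (by omega : 1 ≤ d)] at h4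
        rw [← h4, Finset.sum_mul]
        refine Finset.sum_congr rfl fun U hU => ?_
        rw [mem_powerset] at hU
        rw [← Finset.prod_sdiff hU, ← h1]
        ring
      rw [Finset.sum_congr rfl h3, ← Finset.mul_sum, esymm_erase_erase hd hζ (σ p.1) h2, Dm]
      by_cases h4 : yrow ζ (σ p.1) p.2 = yrow ζ (σ p.1) q.2
      · rw [if_pos h4, if_pos ⟨h1, h2, by rw [← h1]; exact h4⟩]
        have h5 : ((-1 : ℂ) ^ (d - 1)) * (-1) ^ (d - 1) = 1 := by
          rw [← mul_pow]; norm_num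
        linear_combination (-(d : ℂ) * (d.factorial : ℂ) * yrow ζ (σ p.1) p.2 ^ (d - 1)) * h5
      · rw [if_neg h4, if_neg (fun h' => h4 (by rw [h'.2.2, h1])), mul_zero, mul_zero]
    · rw [Hess, if_pos ⟨h1, h2⟩, Dm, if_neg (fun h' => h1 h'.1), RK, Finset.mul_sum,
        ← Finset.sum_add_distrib]
      refine Finset.sum_eq_zero fun T hT => ?_
      rw [mem_powersetCard] at hT
      rw [E_erase_erase (MM ζ σ z) h.lt (i := Sum.inl p.1) (i' := Sum.inl q.1)
        (fun h' => h1 (Sum.inl_injective h')) (by omega : T.card < d), hT.2]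
      have h3 : ∑ U ∈ T.powerset, (U.card.factorial : ℂ) * ((T \ U).card.factorial : ℂ) *
          (∏ l ∈ U, MM ζ σ z (Sum.inl q.1) l) * ∏ l ∈ T \ U, MM ζ σ z (Sum.inl p.1) l =
          ∑ U ∈ T.powerset, (((T \ U).card.factorial : ℂ) * ∏ k ∈ T \ U, yrow ζ (σ p.1) k) *
          ((U.card.factorial : ℂ) * ∏ k ∈ U, yrow ζ (σ q.1) k) := by
        refine Finset.sum_congr rfl fun U _ => ?_
        simp only [MM, Sum.elim_inl]
        ring
      rw [h3]
      ring

theorem rank_Dm (hd : 2 ≤ d) (hζ : IsPrimitiveRoot ζ d) (σ : Fin a → Fin 2 → Equiv.Perm (Fin d)) :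
    (Dm ζ σ).rank = a * (2 * d) := by
  have hinj : Function.Injective (Dm ζ σ).mulVecLin := by
    rw [← LinearMap.ker_eq_bot, LinearMap.ker_eq_bot']
    intro v hv
    funext q
    obtain ⟨l', hl', hy, _⟩ := yrow_partner hζ (σ q.1) q.2
    obtain ⟨l'', _, _, huniq⟩ := yrow_partner hζ (σ q.1) l'
    have h1 := congrFun hv (q.1, l')
    rw [Matrix.mulVecLin_apply, Matrix.mulVec, dotProduct, Finset.sum_eq_single q] at h1
    · rw [Dm, if_pos ⟨rfl, hl', hy⟩] at h1
      have h2 : (-((d : ℂ) * (d.factorial : ℂ) * yrow ζ (σ q.1) l' ^ (d - 1))) ≠ 0 := by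
        rw [neg_ne_zero]
        refine mul_ne_zero (mul_ne_zero (Nat.cast_ne_zero.2 (by omega))
          (Nat.cast_ne_zero.2 (Nat.factorial_ne_zero d))) (pow_ne_zero _ (yrow_ne_zero hζ _ _))
      exact (mul_eq_zero.1 h1).resolve_left h2
    · intro q' _ hne
      rw [Dm, if_neg, zero_mul]
      rintro ⟨h3, h4, h5⟩
      apply hne
      simp only at h3 h4 h5
      rw [← h3] at h5
      have h6 := huniq q'.2 h4.symm h5.symm
      have h7 := huniq q.2 hl'.symm hy.symm
      exact Prod.ext h3.symm (h6.trans h7.symm)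
    · intro h'
      exact (h' (mem_univ q)).elim
  rw [Matrix.rank, LinearMap.finrank_range_of_inj hinj, Module.finrank_fintype_fun_eq_card]
  simp

theorem rank_add_le' {m n : Type} [Fintype n] [Finite m] (A B : Matrix m n ℂ) :
    (A + B).rank ≤ A.rank + B.rank := by
  have : Fintype m := Fintype.ofFinite m
  unfold Matrix.rank
  rw [Matrix.mulVecLin_add]
  refine (Submodule.finrank_mono (t := LinearMap.range A.mulVecLin ⊔ LinearMap.range B.mulVecLin)
    ?_).trans (Submodule.finrank_add_le_finrank_add_finrank _ _)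
  rintro x ⟨v, rfl⟩
  exact Submodule.add_mem_sup (LinearMap.mem_range_self _ v) (LinearMap.mem_range_self _ v)

theorem rank_Hess (hd : 2 ≤ d) (hζ : IsPrimitiveRoot ζ d) (h : Mom ζ σ z) :
    a * (2 * d) ≤ (Hess ζ σ z).rank + 4 ^ d := by
  rw [← rank_Dm hd hζ σ, ← Hess_add hd hζ h]
  refine (rank_add_le' _ _).trans (Nat.add_le_add_left ?_ _)
  refine (Matrix.rank_mul_le_left _ _).trans ((Matrix.rank_le_card_width _).trans ?_)
  rw [Fintype.card_finset]
  simp only [Fintype.card_prod, Fintype.card_fin]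
  rw [pow_mul]
  norm_num

end Pool.Agent.Helper24.SQ
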