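import Pool.Agent.Helper24.SQ.Defs

/-!
# MODULE SymMinor: a symmetric matrix of rank `r` has a nonsingular principal `r × r` submatrix
-/

set_option autoImplicit false

namespace Pool.Agent.Helper24.SQ

open Finset Matrix

theorem exists_principal {K n : Type} [Field K] [Fintype n] [DecidableEq n] (H : Matrix n n K)
    (hH : H.IsSymm) :
    ∃ S : Finset n, S.card = H.rank ∧ ∀ w : n → K, (∀ v ∉ S, w v = 0) →
      (∀ v ∈ S, ∑ v' ∈ S, H v v' * w v' = 0) → w = 0 := by
  classical
  obtain ⟨κ, a, ha, hspan, hli⟩ := exists_linearIndependent' K H.row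
  have : Finite κ := Finite.of_injective a ha
  have := Fintype.ofFinite κ
  refine ⟨univ.image a, ?_, ?_⟩
  · rw [card_image_of_injective _ ha, card_univ, H.rank_eq_finrank_span_row, ← hspan,
      finrank_span_eq_card hli]
  · intro w hw hv
    have h1 : ∀ v, ∑ v', H v v' * w v' = 0 := by
      have h2 : ∀ k : κ, ∑ v', H (a k) v' * w v' = 0 := by
        intro k
        rw [← hv (a k) (mem_image_of_mem _ (mem_univ k))]
        symm
        apply sum_subset (subset_univ _)
        intro v' _ h
        rw [hw v' h, mul_zero]
      let φ : (n → K) →ₗ[K] K := ∑ v', w v' • LinearMap.proj v'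
      have hφ : ∀ r : n → K, φ r = ∑ v', r v' * w v' := by
        intro r
        simp [φ, mul_comm]
      have h3 : Submodule.span K (Set.range (H.row ∘ a)) ≤ LinearMap.ker φ := by
        rw [Submodule.span_le]
        rintro _ ⟨k, rfl⟩
        exact (hφ _).trans (h2 k)
      intro v
      have h4 : H.row v ∈ LinearMap.ker φ := by
        apply h3
        rw [hspan]
        exact Submodule.subset_span ⟨v, rfl⟩
      exact (hφ _).symm.trans h4
    have h5 : ∑ k : κ, w (a k) • (H.row ∘ a) k = 0 := by
      funext v
      rw [Pi.zero_apply, ← h1 v, Finset.sum_apply]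
      have h6 : ∑ v', H v v' * w v' = ∑ v' ∈ univ.image a, H v v' * w v' := by
        symm
        apply sum_subset (subset_univ _)
        intro v' _ h
        rw [hw v' h, mul_zero]
      rw [h6, sum_image (fun _ _ _ _ h => ha h)]
      refine Finset.sum_congr rfl fun k _ => ?_
      have := hH.apply (a k) v
      simp only [Pi.smul_apply, Function.comp_apply, Matrix.row, smul_eq_mul]
      rw [this, mul_comm]
    have h7 := Fintype.linearIndependent_iff.1 hli (fun k => w (a k)) h5
    funext v
    by_cases h : v ∈ univ.image a
    · obtain ⟨k, _, rfl⟩ := mem_image.1 h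
      exact h7 k
    · exact hw v h

end Pool.Agent.Helper24.SQ
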