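import Pool.Agent.Helper24.SQ.Crit
import Pool.Agent.Helper24.SQ.GradHess
import Pool.Agent.Helper24.SQ.SymMinor
import Pool.Agent.Helper24.SQ.ConstRows
import Pool.Agent.Helper24.SQ.Deriv
import Pool.Agent.Helper24.SQ.Count

/-!
# MODULE CritPts: a sum of rook sums of affine matrices with very many nondegenerate critical points
-/

set_option autoImplicit false

namespace Pool.Agent.Helper24.SQ

open Finset MvPolynomial

/-- The rows common to all groups. -/
abbrev II (a d : ℕ) : Type := Fin a ⊕ (Finset (JJ d) × (JJ d → Bool))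

/-- The moments of a configuration. -/
noncomputable def mom {a d : ℕ} (ζ : ℂ) (σ : Conf a d) (T : Finset (JJ d)) : ℂ :=
  ∑ i, ∏ l ∈ T, yrow ζ (σ i) l

/-- The constant rows compensating the moments `μ`. -/
noncomputable def zz (d : ℕ) (μ : Finset (JJ d) → ℂ) :
    Finset (JJ d) × (JJ d → Bool) → JJ d → ℂ :=
  (exists_const_rows d fun T => -μ T).choose

theorem zz_lt (d : ℕ) (μ : Finset (JJ d) → ℂ) (T : Finset (JJ d)) (h1 : T.Nonempty)
    (h2 : T.card < d) : ∑ c, ∏ l ∈ T, zz d μ c l = -μ T :=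
  (exists_const_rows d fun T => -μ T).choose_spec.1 T h1 h2

theorem zz_ge (d : ℕ) (μ : Finset (JJ d) → ℂ) (T : Finset (JJ d)) (h1 : T.Nonempty)
    (h2 : d ≤ T.card) : ∑ c, ∏ l ∈ T, zz d μ c l = 0 :=
  (exists_const_rows d fun T => -μ T).choose_spec.2 T h1 h2

theorem mom_Mom {a d : ℕ} (hd : 2 ≤ d) (ζ : ℂ) (σ : Conf a d) : Mom ζ σ (zz d (mom ζ σ)) where
  lt := fun T h1 h2 => by
    rw [Fintype.sum_sum_type]
    simp only [MM, Sum.elim_inl, Sum.elim_inr]
    rw [zz_lt d _ T h1 h2]
    unfold mom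
    ring
  eq := fun T h => zz_ge d _ T (by rw [← Finset.card_pos]; omega) h.ge

section group

variable {a d G : ℕ} (S : Finset (Fin a × JJ d)) (y₀ : Fin a × JJ d → ℂ)
  (z : Finset (JJ d) × (JJ d → Bool) → JJ d → ℂ)

/-- The entries of the group `g`. -/
noncomputable def MG (g : Fin G) : II a d → JJ d → MvPolynomial (Option (Fin G × S)) ℂ :=
  fun i l => i.elim (fun i' => if h : (i', l) ∈ S then X (some (g, ⟨(i', l), h⟩))
    else C (y₀ (i', l))) (fun c => C (z c l))

theorem MG_totalDegree (g : Fin G) (i : II a d) (l : JJ d) :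
    (MG S y₀ z g i l).totalDegree ≤ 1 := by
  rcases i with i | c
  · simp only [MG, Sum.elim_inl]
    split_ifs
    · rw [totalDegree_X]
    · rw [totalDegree_C]; exact zero_le_one
  · simp only [MG, Sum.elim_inr]
    rw [totalDegree_C]; exact zero_le_one

theorem pderiv_MG (g g₁ : Fin G) (s : S) (i : II a d) (l : JJ d) :
    pderiv (some (g₁, s)) (MG S y₀ z g i l) =
      if g = g₁ ∧ i = Sum.inl s.1.1 ∧ l = s.1.2 then 1 else 0 := by
  classical
  rcases i with i | c
  · simp only [MG, Sum.elim_inl]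
    split_ifs with h1 h2 h2
    · obtain ⟨rfl, h3, rfl⟩ := h2
      rw [Sum.inl.injEq] at h3
      subst h3
      rw [pderiv_X_self]
    · rw [pderiv_X_of_ne]
      intro h
      rw [Option.some.injEq, Prod.mk.injEq] at h
      obtain ⟨rfl, h3⟩ := h
      exact h2 ⟨rfl, by rw [← h3], by rw [← h3]⟩
    · exfalso
      obtain ⟨_, h3, h4⟩ := h2
      rw [Sum.inl.injEq] at h3
      apply h1
      rw [h3, h4]
      exact s.2
    · rw [pderiv_C]
  · simp [MG]

theorem pderiv_none_MG (g : Fin G) (i : II a d) (l : JJ d) :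
    pderiv none (MG S y₀ z g i l) = 0 := by
  rcases i with i | c
  · simp only [MG, Sum.elim_inl]
    split_ifs with h1
    · rw [pderiv_X_of_ne]
      simp
    · rw [pderiv_C]
  · simp [MG]

theorem pderiv_RK_MG (g g₁ : Fin G) (s : S) (A : Finset (II a d)) (U : Finset (JJ d)) (k : ℕ) :
    pderiv (some (g₁, s)) (RK (MG S y₀ z g) A U (k + 1)) =
      if g = g₁ ∧ Sum.inl s.1.1 ∈ A ∧ s.1.2 ∈ U then
        RK (MG S y₀ z g) (A.erase (Sum.inl s.1.1)) (U.erase s.1.2) k else 0 := by
  rw [pderiv_RK]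
  simp_rw [pderiv_MG]
  by_cases hg : g = g₁
  · simp only [hg, true_and]
    have h1 : ∀ i ∈ A, (∑ l ∈ U, RK (MG S y₀ z g₁) (A.erase i) (U.erase l) k *
        (if i = Sum.inl s.1.1 ∧ l = s.1.2 then 1 else 0)) =
        if i = Sum.inl s.1.1 then (if s.1.2 ∈ U then
          RK (MG S y₀ z g₁) (A.erase (Sum.inl s.1.1)) (U.erase s.1.2) k else 0) else 0 := by
      intro i _
      split_ifs with h1 h2
      · subst h1
        rw [Finset.sum_eq_single s.1.2]
        · simp
        · intro l _ hl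
          simp [hl]
        · intro h
          exact absurd h2 h
      · subst h1
        refine Finset.sum_eq_zero fun l hl => ?_
        rw [if_neg, mul_zero]
        rintro ⟨_, rfl⟩
        exact h2 hl
      · refine Finset.sum_eq_zero fun l hl => ?_
        rw [if_neg, mul_zero]
        rintro ⟨h, _⟩
        exact h1 h
    rw [Finset.sum_congr rfl h1]
    by_cases hA : (Sum.inl s.1.1 : II a d) ∈ A
    · rw [Finset.sum_eq_single (Sum.inl s.1.1 : II a d)]
      · simp [hA]
      · intro i _ hi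
        rw [if_neg hi]
      · intro h
        exact absurd hA h
    · have h2 : ¬ ((Sum.inl s.1.1 : II a d) ∈ A ∧ s.1.2 ∈ U) := fun h => hA h.1
      rw [if_neg h2]
      refine Finset.sum_eq_zero fun i hi => ?_
      rw [if_neg]
      rintro rfl
      exact hA hi
  · simp [hg]

theorem pderiv_RK_MG' (g g₁ : Fin G) (s : S) (A : Finset (II a d)) (U : Finset (JJ d)) (k k' : ℕ)
    (hk : k' = k + 1) : pderiv (some (g₁, s)) (RK (MG S y₀ z g) A U k') =
      if g = g₁ ∧ Sum.inl s.1.1 ∈ A ∧ s.1.2 ∈ U then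
        RK (MG S y₀ z g) (A.erase (Sum.inl s.1.1)) (U.erase s.1.2) k else 0 := by
  subst hk
  exact pderiv_RK_MG S y₀ z g g₁ s A U k

theorem pderiv_none_RK_MG (g : Fin G) (A : Finset (II a d)) (U : Finset (JJ d)) (k : ℕ) :
    pderiv none (RK (MG S y₀ z g) A U (k + 1)) = 0 := by
  rw [pderiv_RK]
  simp_rw [pderiv_none_MG]
  simp

/-- The values of the variables. -/
noncomputable def pt (ζ κ : ℂ) (σ : Fin G → Conf a d) : Option (Fin G × S) → ℂ
  | none => κ * (∑ v : Fin G × S, cval ζ (σ v.1) v.2.1) -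
      ∑ g, rook (d + 1) (MM (C := Finset (JJ d) × (JJ d → Bool)) ζ (σ g) z)
  | some v => cval ζ (σ v.1) v.2.1

theorem eval_MG (ζ κ : ℂ) (σ : Fin G → Conf a d)
    (hσ : ∀ g, ∀ v, v ∉ S → cval ζ (σ g) v = y₀ v) (g : Fin G) (i : II a d) (l : JJ d) :
    eval (pt S z ζ κ σ) (MG S y₀ z g i l) =
      MM (C := Finset (JJ d) × (JJ d → Bool)) ζ (σ g) z i l := by
  rcases i with i | c
  · simp only [MG, MM, Sum.elim_inl]
    split_ifs with h1
    · rw [eval_X]
      rfl
    · rw [eval_C, ← hσ g _ h1]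
      rfl
  · simp [MG, MM]

theorem eval_RK_MG (ζ κ : ℂ) (σ : Fin G → Conf a d)
    (hσ : ∀ g, ∀ v, v ∉ S → cval ζ (σ g) v = y₀ v) (g : Fin G) (A : Finset (II a d))
    (U : Finset (JJ d)) (k : ℕ) :
    eval (pt S z ζ κ σ) (RK (MG S y₀ z g) A U k) =
      RK (MM (C := Finset (JJ d) × (JJ d → Bool)) ζ (σ g) z) A U k := by
  rw [map_RK]
  congr 1
  funext i l
  exact eval_MG S y₀ z ζ κ σ hσ g i l

/-- The linear form of the extra group. -/
noncomputable def ell (κ : ℂ) : MvPolynomial (Option (Fin G × S)) ℂ :=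
  X none - C κ * ∑ v, X (some v)

theorem ell_totalDegree (κ : ℂ) : (ell S κ : MvPolynomial (Option (Fin G × S)) ℂ).totalDegree ≤ 1 := by
  unfold ell
  refine (totalDegree_sub _ _).trans (max_le ?_ ?_)
  · rw [totalDegree_X]
  · refine (totalDegree_mul _ _).trans ?_
    rw [totalDegree_C, zero_add]
    refine totalDegree_finsetSum_le fun v _ => ?_
    rw [totalDegree_X]

theorem pderiv_none_ell (κ : ℂ) :
    pderiv none (ell S κ : MvPolynomial (Option (Fin G × S)) ℂ) = 1 := by
  unfold ell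
  rw [map_sub, pderiv_X_self, pderiv_C_mul, map_sum, Finset.sum_eq_zero, mul_zero, sub_zero]
  intro v _
  rw [pderiv_X_of_ne]
  simp

theorem pderiv_some_ell (κ : ℂ) (v : Fin G × S) :
    pderiv (some v) (ell S κ : MvPolynomial (Option (Fin G × S)) ℂ) = - C κ := by
  classical
  unfold ell
  rw [map_sub, pderiv_X_of_ne (by simp), pderiv_C_mul, map_sum, Finset.sum_eq_single v]
  · rw [pderiv_X_self, zero_sub, mul_one]
  · intro u _ hu
    rw [pderiv_X_of_ne]
    simp [hu]
  · intro h
    exact absurd (mem_univ _) h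

end group

theorem exists_critPts (d a G : ℕ) (hd : 2 ≤ d) (ha : d + 1 ≤ a) :
    ∃ (S : Finset (Fin a × JJ d)) (M : Fin (G + 1) → II a d → JJ d →
      MvPolynomial (Option (Fin G × S)) ℂ), (∀ g i l, (M g i l).totalDegree ≤ 1) ∧
      ∀ C₀ : ℂ, C₀ ≠ 0 → ∃ Z : Finset (Option (Fin G × S) → ℂ),
        (∀ z ∈ Z, CritPt (C C₀ * ∑ g, rook (d + 1) (M g)) z) ∧
        d.factorial ^ (2 * a * G) ≤
          ((a + 1) ^ (d * 4 ^ d) * (2 * a * d * d + 1) ^ (4 ^ d)) ^ G * Z.card := by
  classical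
  obtain ⟨ζ, hζ⟩ : ∃ ζ : ℂ, IsPrimitiveRoot ζ d :=
    ⟨_, Complex.isPrimitiveRoot_exp d (by omega)⟩
  choose S hScard hS using fun σ : Conf a d =>
    exists_principal (Hess ζ σ (zz d (mom ζ σ))) (Hess_symm _ _ _)
  obtain ⟨Y, S₀, μ, y₀, hY, hcard⟩ := exists_class hζ S fun σ => by
    rw [hScard]
    exact rank_Hess hd hζ (mom_Mom hd ζ σ)
  have hmom : ∀ σ ∈ Y, mom ζ σ = μ := fun σ hσ => funext fun T => (hY σ hσ).2.1 T
  set κ : ℂ := ((d - 1).factorial : ℂ) * ((a : ℂ) - d) with hκ
  -- the extra group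
  have hi : d + 1 ≤ Fintype.card (II a d) := by
    rw [Fintype.card_sum, Fintype.card_fin]
    omega
  have hj : d + 1 ≤ Fintype.card (JJ d) := by
    simp only [JJ, Fintype.card_prod, Fintype.card_fin]
    omega
  obtain ⟨i₀⟩ : Nonempty (Fin (d + 1) ↪ II a d) := by
    apply Function.Embedding.nonempty_of_card_le
    rw [Fintype.card_fin]
    exact hi
  obtain ⟨j₀⟩ : Nonempty (Fin (d + 1) ↪ JJ d) := by
    apply Function.Embedding.nonempty_of_card_le
    rw [Fintype.card_fin]
    exact hj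
  let M0 : II a d → JJ d → MvPolynomial (Option (Fin G × S₀)) ℂ := fun i l =>
    ∑ r : Fin (d + 1), if i = i₀ r ∧ l = j₀ r then (if r = 0 then ell S₀ κ else 1) else 0
  have hM0 : rook (d + 1) M0 = ell S₀ κ := rook_diag i₀ j₀ (ell S₀ κ)
  have hM0d : ∀ i l, (M0 i l).totalDegree ≤ 1 := by
    intro i l
    refine totalDegree_finsetSum_le fun r _ => ?_
    split_ifs
    · exact ell_totalDegree S₀ κ
    · simp
    · simp
  refine ⟨S₀, fun g => Fin.cases M0 (fun g' => MG S₀ y₀ (zz d μ) g') g, ?_, ?_⟩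
  · intro g i l
    refine Fin.cases ?_ (fun g' => ?_) g
    · exact hM0d i l
    · exact MG_totalDegree _ _ _ _ _ _
  intro C₀ hC₀
  have hF : (∑ g : Fin (G + 1), rook (d + 1) (Fin.cases (motive := fun _ => II a d → JJ d →
      MvPolynomial (Option (Fin G × S₀)) ℂ) M0 (fun g' => MG S₀ y₀ (zz d μ) g') g)) =
      ell S₀ κ + ∑ g : Fin G, rook (d + 1) (MG S₀ y₀ (zz d μ) g) := by
    rw [Fin.sum_univ_succ]
    simp only [Fin.cases_zero, Fin.cases_succ]
    rw [hM0]
  rw [hF]
  refine ⟨(Fintype.piFinset fun _ : Fin G => Y).image (pt S₀ (zz d μ) ζ κ), ?_, ?_⟩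
  · intro z hz
    rw [mem_image] at hz
    obtain ⟨σ, hσ, rfl⟩ := hz
    rw [Fintype.mem_piFinset] at hσ
    have hσ' : ∀ g, ∀ v, v ∉ S₀ → cval ζ (σ g) v = y₀ v := fun g => (hY _ (hσ g)).2.2
    have hMom : ∀ g, Mom ζ (σ g) (zz d μ) := fun g => by
      have := mom_Mom hd ζ (σ g)
      rwa [hmom _ (hσ g)] at this
    have hd1 : ∀ v : Fin G × S₀, pderiv (some v) (C C₀ * (ell S₀ κ +
        ∑ g : Fin G, rook (d + 1) (MG S₀ y₀ (zz d μ) g))) =
        C C₀ * (- C κ + RK (MG S₀ y₀ (zz d μ) v.1) (univ.erase (Sum.inl v.2.1.1))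
          (univ.erase v.2.1.2) d) := by
      intro v
      rw [pderiv_C_mul, map_add, pderiv_some_ell, map_sum]
      congr 2
      unfold rook
      rw [Finset.sum_eq_single v.1]
      · rw [pderiv_RK_MG, if_pos ⟨rfl, mem_univ _, mem_univ _⟩]
      · intro g _ hg
        rw [pderiv_RK_MG, if_neg fun h => hg h.1]
      · intro h
        exact absurd (mem_univ _) h
    refine ⟨?_, ?_, ?_, ?_⟩
    · rw [map_mul, map_add, map_sum]
      unfold rook
      simp_rw [eval_RK_MG S₀ y₀ (zz d μ) ζ κ σ hσ']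
      unfold ell
      rw [map_sub, map_mul, map_sum, eval_X, eval_C, eval_C]
      simp only [eval_X, pt]
      unfold rook
      ring
    · intro v
      rw [hd1 v, map_mul, map_add, eval_RK_MG S₀ y₀ (zz d μ) ζ κ σ hσ', map_neg, eval_C, eval_C,
        grad hd hζ (hMom v.1)]
      rw [hκ]
      ring
    · rw [pderiv_C_mul, map_mul, eval_C, map_add, pderiv_none_ell, map_sum]
      unfold rook
      simp_rw [pderiv_none_RK_MG]
      simpa using hC₀
    · intro w hw
      have hd2 : ∀ v v' : Fin G × S₀, eval (pt S₀ (zz d μ) ζ κ σ) (pderiv (some v')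
          (pderiv (some v) (C C₀ * (ell S₀ κ +
            ∑ g : Fin G, rook (d + 1) (MG S₀ y₀ (zz d μ) g))))) =
          C₀ * if v'.1 = v.1 then Hess ζ (σ v.1) (zz d μ) v.2.1 v'.2.1 else 0 := by
        intro v v'
        rw [hd1 v, pderiv_C_mul, map_mul, eval_C, map_add, map_neg, pderiv_C,
          neg_zero, zero_add]
        congr 1
        rw [pderiv_RK_MG' S₀ y₀ (zz d μ) v.1 v'.1 v'.2 _ _ (d - 1) d (by omega)]
        by_cases hg : v.1 = v'.1
        · rw [if_pos hg.symm]
          unfold Hess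
          by_cases hne : v.2.1.1 ≠ v'.2.1.1 ∧ v.2.1.2 ≠ v'.2.1.2
          · have h3 : v.1 = v'.1 ∧ (Sum.inl v'.2.1.1 : II a d) ∈ univ.erase (Sum.inl v.2.1.1) ∧
                v'.2.1.2 ∈ univ.erase v.2.1.2 := by
              refine ⟨hg, ?_, ?_⟩
              · rw [mem_erase]
                refine ⟨?_, mem_univ _⟩
                rw [Ne, Sum.inl.injEq]
                exact hne.1.symm
              · rw [mem_erase]
                exact ⟨hne.2.symm, mem_univ _⟩
            rw [if_pos hne, if_pos h3]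
            exact eval_RK_MG S₀ y₀ (zz d μ) ζ κ σ hσ' _ _ _ _
          · rw [if_neg hne, if_neg, map_zero]
            rintro ⟨_, h5, h6⟩
            rw [mem_erase, Ne, Sum.inl.injEq] at h5
            rw [mem_erase] at h6
            exact hne ⟨fun h => h5.1 h.symm, fun h => h6.1 h.symm⟩
        · rw [if_neg fun h => hg h.1, if_neg fun h => hg h.symm, map_zero]
      simp_rw [hd2] at hw
      funext v
      have hS₀ := hS (σ v.1)
      rw [(hY _ (hσ v.1)).1, hmom _ (hσ v.1)] at hS₀
      have h5 := hS₀ (fun u => if h : u ∈ S₀ then w (v.1, ⟨u, h⟩) else 0) ?_ ?_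
      · have := congrFun h5 v.2.1
        simp only [v.2.2, dite_true] at this
        exact this
      · intro u hu
        simp [hu]
      · intro u hu
        have h6 := hw (v.1, ⟨u, hu⟩)
        rw [Fintype.sum_prod_type] at h6
        rw [Finset.sum_eq_single v.1] at h6
        · simp only [if_true] at h6
          rw [← Finset.sum_coe_sort S₀]
          have h7 : C₀ * ∑ x : S₀, Hess ζ (σ v.1) (zz d μ) u x.1 * w (v.1, x) = 0 := by
            rw [Finset.mul_sum, ← h6]
            refine Finset.sum_congr rfl fun x _ => ?_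
            ring
          have h8 := (mul_eq_zero.1 h7).resolve_left hC₀
          rw [← h8]
          refine Finset.sum_congr rfl fun x _ => ?_
          rw [dif_pos x.2]
        · intro g _ hg
          refine Finset.sum_eq_zero fun x _ => ?_
          rw [if_neg hg, mul_zero, zero_mul]
        · intro h
          exact absurd (mem_univ _) h
  · rw [Finset.card_image_of_injOn, Fintype.card_piFinset, Finset.prod_const, Finset.card_univ,
      Fintype.card_fin, pow_mul, ← mul_pow]
    · refine Nat.pow_le_pow_left ?_ G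
      exact hcard.trans (le_of_eq (mul_comm _ _))
    · intro σ hσ τ hτ h
      rw [Finset.mem_coe, Fintype.mem_piFinset] at hσ hτ
      funext g
      apply cval_injective hζ
      funext v
      by_cases hv : v ∈ S₀
      · exact congrFun h (some (g, ⟨v, hv⟩))
      · rw [(hY _ (hσ g)).2.2 v hv, (hY _ (hτ g)).2.2 v hv]

end Pool.Agent.Helper24.SQ
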