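import Mathlib

/-!
# Superquadratic lower bound for the determinantal complexity of the permanent: definitions
(problem MP_104cea_lc)
-/

set_option autoImplicit false

namespace Pool.Agent.Helper24.SQ

open Finset Matrix

/-! ## Determinantal representations -/

/-- The polynomial `P` is, as a function, the determinant of an `m × m` matrix of affine linear
functions. -/
def DetRep {σ : Type} [Fintype σ] (P : MvPolynomial σ ℂ) (m : ℕ) : Prop :=
  ∃ (A₀ : Matrix (Fin m) (Fin m) ℂ) (L : σ → Matrix (Fin m) (Fin m) ℂ),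
    ∀ x : σ → ℂ, MvPolynomial.eval x P = (A₀ + ∑ v, x v • L v).det

/-- The permanent of the generic `n × n` matrix. -/
noncomputable def permPoly (n : ℕ) : MvPolynomial (Fin n × Fin n) ℂ :=
  (Matrix.of fun i j : Fin n => (MvPolynomial.X (i, j) : MvPolynomial (Fin n × Fin n) ℂ)).permanent

/-- The permanent is a (coefficientwise) limit of polynomials with determinantal representations
of size `m`. -/
def BorderRep (n m : ℕ) : Prop :=
  ∀ ε : ℝ, 0 < ε → ∃ P : MvPolynomial (Fin n × Fin n) ℂ, DetRep P m ∧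
    ∀ s, ‖P.coeff s - (permPoly n).coeff s‖ < ε

/-! ## Rook sums -/

section Rook

variable {K I J : Type} [CommSemiring K] [DecidableEq I] [DecidableEq J]

/-- Sum, over all injections `σ` of the set of columns `T` into the set of rows `A`, of the
product of the entries `Y (σ l) l`, `l ∈ T`. -/
noncomputable def E (Y : I → J → K) (A : Finset I) (T : Finset J) : K :=
  ∑ σ : T ↪ A, ∏ l : T, Y (σ l) l

/-- Sum of the `k × k` subpermanents of `Y` with rows in `A` and columns in `U`. -/
noncomputable def RK (Y : I → J → K) (A : Finset I) (U : Finset J) (k : ℕ) : K :=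
  ∑ T ∈ powersetCard k U, E Y A T

/-- Sum of all `s × s` subpermanents of `Y`. -/
noncomputable def rook [Fintype I] [Fintype J] (s : ℕ) (Y : I → J → K) : K := RK Y univ univ s

end Rook

/-! ## Macaulay spaces -/

section Mac

variable {K A : Type} [Field K] [CommRing A] [Algebra K A]

/-- Products of `α` elements of `W₁` and `β` elements of `W₂`. -/
def SS (W₁ W₂ : Submodule K A) (α β : ℕ) : Submodule K A := W₁ ^ α * W₂ ^ β

/-- The Macaulay space in bidegree `(α, β)` of a family whose members `F (inl j)` have bidegree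
`(1, 1)` and whose members `F (inr j)` have bidegree `(0, 2)`. -/
def MacF (W₁ W₂ : Submodule K A) {J₁ J₂ : Type} (F : J₁ ⊕ J₂ → A) (α β : ℕ) : Submodule K A :=
  (⨆ j : J₁, Submodule.span K {F (Sum.inl j)} * SS W₁ W₂ (α - 1) (β - 1)) ⊔
    (⨆ j : J₂, Submodule.span K {F (Sum.inr j)} * SS W₁ W₂ α (β - 2))

/-- `MacF` has codimension at most `b` in `SS`. -/
def Covers (W₁ W₂ : Submodule K A) {J₁ J₂ : Type} (F : J₁ ⊕ J₂ → A) (α β b : ℕ) : Prop :=
  ∃ P : Submodule K A, Module.Finite K P ∧ Module.finrank K P ≤ b ∧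
    SS W₁ W₂ α β ≤ MacF W₁ W₂ F α β ⊔ P

end Mac

/-- The span of `1` and of the variables of the first kind. -/
noncomputable def WX₁ (ι₁ ι₂ : Type) : Submodule ℂ (MvPolynomial (ι₁ ⊕ ι₂) ℂ) :=
  Submodule.span ℂ (Set.range fun o : Option ι₁ => o.elim 1 fun i => MvPolynomial.X (Sum.inl i))

/-- The span of `1` and of the variables of the second kind. -/
noncomputable def WX₂ (ι₁ ι₂ : Type) : Submodule ℂ (MvPolynomial (ι₁ ⊕ ι₂) ℂ) :=
  Submodule.span ℂ (Set.range fun o : Option ι₂ => o.elim 1 fun i => MvPolynomial.X (Sum.inr i))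

/-- Nondegenerate common zero of a family of polynomials: the kernel of the Jacobian matrix is
trivial. -/
def NonDeg {σ τ : Type} [Fintype σ] (F : τ → MvPolynomial σ ℂ) (z : σ → ℂ) : Prop :=
  (∀ j, MvPolynomial.eval z (F j) = 0) ∧
    ∀ v : σ → ℂ, (∀ j, ∑ i, MvPolynomial.eval z (MvPolynomial.pderiv i (F j)) * v i = 0) → v = 0

end Pool.Agent.Helper24.SQ
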