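import Mathlib

/-!
# MODULE Numeric: consequences of the counting inequality
-/

set_option autoImplicit false

namespace Pool.Agent.Helper24.SQ

/-- `y ↦ y log (4 e M / y)` is monotone for `y ≤ K ≤ 4 M` -/
theorem numeric_mono {y K M : ℝ} (hy : 0 < y) (hyK : y ≤ K) (hKM : K ≤ 4 * M) :
    y * Real.log (4 * Real.exp 1 * M / y) ≤ K * (1 + Real.log (4 * M / K)) := by
  have hK : 0 < K := lt_of_lt_of_le hy hyK
  have hM : 0 < M := by linarith
  have h1 : Real.log (4 * Real.exp 1 * M / y) = 1 + Real.log (4 * M / K) + Real.log (K / y) := by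
    rw [← Real.log_exp 1, ← Real.log_mul (by positivity) (by positivity),
      ← Real.log_mul (by positivity) (by positivity), Real.log_exp]
    congr 1
    field_simp
  have h2 : Real.log (K / y) ≤ K / y - 1 := Real.log_le_sub_one_of_pos (by positivity)
  have h3 : y * Real.log (K / y) ≤ K - y := by
    calc y * Real.log (K / y) ≤ y * (K / y - 1) := mul_le_mul_of_nonneg_left h2 hy.le
      _ = K - y := by field_simp
  have h4 : 0 ≤ Real.log (4 * M / K) := Real.log_nonneg (by rw [le_div_iff₀ hK]; linarith)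
  rw [h1]
  have h5 : 0 ≤ (K - y) * Real.log (4 * M / K) := mul_nonneg (by linarith) h4
  nlinarith

/-- the core inequality, in logarithmic form -/
theorem numeric_core {d a G S m : ℕ} (hd : 300 ≤ d) (ha : 1 ≤ a) (hG : 1 ≤ G) (hm : 1 ≤ m)
    (hS : S ≤ 2 * a * d)
    (hE : (4 : ℝ) ^ d * (d * Real.log (a + 1) + Real.log (2 * a * d * d + 1)) ≤ 2 * a * d)
    (h : ((d.factorial ^ (2 * a * G) : ℕ) : ℝ) ≤
        ((((a + 1) ^ (d * 4 ^ d) * (2 * a * d * d + 1) ^ (4 ^ d)) ^ G : ℕ) : ℝ) *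
          (4 * Real.exp 1 * m / (G * S + 2 : ℕ)) ^ (G * S + 2)) :
    (d : ℝ) * (2 * a * d * G) ≤ 4 * Real.exp 4 * m := by
  have hdp : (0 : ℝ) < d := by exact_mod_cast (by omega : 0 < d)
  have hap : (0 : ℝ) < a := by exact_mod_cast ha
  have hGp : (0 : ℝ) < G := by exact_mod_cast hG
  have hmp : (0 : ℝ) < m := by exact_mod_cast hm
  have hd300 : (300 : ℝ) ≤ d := by exact_mod_cast hd
  have ha1 : (1 : ℝ) ≤ a := by exact_mod_cast ha
  have hG1 : (1 : ℝ) ≤ G := by exact_mod_cast hG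
  set y : ℝ := ((G * S + 2 : ℕ) : ℝ) with hy
  have hy2 : 2 ≤ y := by rw [hy]; exact_mod_cast (by omega : 2 ≤ G * S + 2)
  set K : ℝ := 2 * a * d * G + 2 with hK
  have hyK : y ≤ K := by
    rw [hy, hK]
    have : G * S + 2 ≤ G * (2 * a * d) + 2 := by gcongr
    calc ((G * S + 2 : ℕ) : ℝ) ≤ ((G * (2 * a * d) + 2 : ℕ) : ℝ) := by exact_mod_cast this
      _ = _ := by push_cast; ring
  set M : ℝ := max m K with hM
  have hKM : K ≤ 4 * M := by
    have : K ≤ M := le_max_right _ _
    have : 0 < M := lt_of_lt_of_le hmp (le_max_left _ _)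
    linarith
  have hmM : (m : ℝ) ≤ M := le_max_left _ _
  have hMp : 0 < M := lt_of_lt_of_le hmp hmM
  -- logarithms
  have hfac : (d : ℝ) * (Real.log d - 1) ≤ Real.log d.factorial := by
    have h1 := Real.pow_div_factorial_le_exp (d : ℝ) hdp.le d
    have hfp : (0 : ℝ) < d.factorial := by exact_mod_cast d.factorial_pos
    have h2 := Real.log_le_log (by positivity) h1
    rw [Real.log_exp, Real.log_div (by positivity) (by positivity), Real.log_pow] at h2
    linarith
  have hfp : (0 : ℝ) < d.factorial := by exact_mod_cast d.factorial_pos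
  have hlog : 2 * a * G * Real.log d.factorial ≤
      G * ((4 : ℝ) ^ d * (d * Real.log (a + 1) + Real.log (2 * a * d * d + 1))) +
        y * Real.log (4 * Real.exp 1 * m / y) := by
    have hEp : (0 : ℝ) < ((((a + 1) ^ (d * 4 ^ d) * (2 * a * d * d + 1) ^ (4 ^ d)) ^ G : ℕ) : ℝ) := by
      exact_mod_cast (by positivity : 0 < ((a + 1) ^ (d * 4 ^ d) * (2 * a * d * d + 1) ^ (4 ^ d)) ^ G)
    have hlhs : (0 : ℝ) < ((d.factorial ^ (2 * a * G) : ℕ) : ℝ) := by
      exact_mod_cast (by positivity : 0 < d.factorial ^ (2 * a * G))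
    have h1 := Real.log_le_log hlhs h
    rw [Real.log_mul hEp.ne' (by positivity), Real.log_pow] at h1
    have e1 : Real.log ((d.factorial ^ (2 * a * G) : ℕ) : ℝ) = 2 * a * G * Real.log d.factorial := by
      push_cast
      rw [Real.log_pow]
      push_cast
      ring
    have e2 : Real.log ((((a + 1) ^ (d * 4 ^ d) * (2 * a * d * d + 1) ^ (4 ^ d)) ^ G : ℕ) : ℝ) =
        G * ((4 : ℝ) ^ d * (d * Real.log (a + 1) + Real.log (2 * a * d * d + 1))) := by
      push_cast
      rw [Real.log_pow, Real.log_mul (by positivity) (by positivity), Real.log_pow, Real.log_pow]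
      push_cast
      ring
    rw [e1, e2] at h1
    exact h1
  have hmono : y * Real.log (4 * Real.exp 1 * m / y) ≤ K * (1 + Real.log (4 * M / K)) := by
    refine le_trans ?_ (numeric_mono (by linarith) hyK hKM)
    refine mul_le_mul_of_nonneg_left (Real.log_le_log (by positivity) ?_) (by linarith)
    gcongr
  have hGE : G * ((4 : ℝ) ^ d * (d * Real.log (a + 1) + Real.log (2 * a * d * d + 1))) ≤ K := by
    have h1 := mul_le_mul_of_nonneg_left hE hGp.le
    have h2 : (G : ℝ) * (2 * a * d) = K - 2 := by rw [hK]; ring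
    linarith
  have hlow : (K - 2) * (Real.log d - 1) ≤ 2 * a * G * Real.log d.factorial := by
    have h1 : (K - 2) * (Real.log d - 1) = 2 * a * G * (d * (Real.log d - 1)) := by rw [hK]; ring
    rw [h1]
    exact mul_le_mul_of_nonneg_left hfac (by positivity)
  -- combine
  have hmain : (K - 2) * (Real.log d - 1) ≤ 2 * K + K * Real.log (4 * M / K) := by linarith
  have hKp : 0 < K := by linarith
  have hdK : 2 * (d : ℝ) ≤ K := by
    have h1 : (1 : ℝ) ≤ a * G := by nlinarith
    have h2 : 2 * (d : ℝ) * 1 ≤ 2 * d * (a * G) := mul_le_mul_of_nonneg_left h1 (by positivity)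
    rw [hK]
    linarith
  have hlogd : Real.log d ≤ d - 1 := Real.log_le_sub_one_of_pos hdp
  have hfin : Real.log d ≤ 4 + Real.log (4 * M / K) := by
    have h1 : K * (Real.log d) ≤ K * (4 + Real.log (4 * M / K)) := by nlinarith
    exact le_of_mul_le_mul_left h1 hKp
  have hexp : (d : ℝ) ≤ Real.exp 4 * (4 * M / K) := by
    have h1 := Real.exp_le_exp.2 hfin
    rw [Real.exp_log hdp, Real.exp_add, Real.exp_log (by positivity)] at h1
    exact h1
  have hdKM : (d : ℝ) * K ≤ 4 * Real.exp 4 * M := by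
    have h1 := mul_le_mul_of_nonneg_right hexp hKp.le
    calc (d : ℝ) * K ≤ Real.exp 4 * (4 * M / K) * K := h1
      _ = 4 * Real.exp 4 * M := by field_simp
  -- `M = m`
  have he4 : 4 * Real.exp 4 < 300 := by
    have h1 := Real.exp_one_lt_d9
    have h2 : Real.exp 4 = Real.exp 1 ^ 4 := by
      rw [← Real.exp_nat_mul]
      norm_num
    rw [h2]
    have h3 : Real.exp 1 ^ 4 < 2.7182818286 ^ 4 := by
      gcongr
    calc 4 * Real.exp 1 ^ 4 < 4 * 2.7182818286 ^ 4 := by linarith
      _ < 300 := by norm_num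
  have hMm : M = m := by
    rcases max_choice (m : ℝ) K with h1 | h1
    · rw [hM, h1]
    · exfalso
      rw [← hM] at h1
      rw [h1] at hdKM
      have : (d : ℝ) ≤ 4 * Real.exp 4 := le_of_mul_le_mul_right hdKM hKp
      linarith
  rw [hMm] at hdKM
  have : (d : ℝ) * (2 * a * d * G) ≤ d * K := by
    rw [hK]
    nlinarith
  linarith

/-- the error term -/
theorem numeric_E {n x u : ℝ} {d a : ℕ} (hx : 3000 ≤ x) (hux : x ≤ u) (h4 : (4 : ℝ) ^ d ≤ u ^ 2)
    (hd : (300 : ℝ) ≤ d) (ha : (1 : ℝ) ≤ a) (hdn : (d : ℝ) ≤ n / 4) (han : (a : ℝ) + 1 ≤ n / 2)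
    (hua : 4 * u ^ 3 ≤ 2 * a) (hxn : x = Real.log n) :
    (4 : ℝ) ^ d * (d * Real.log (a + 1) + Real.log (2 * a * d * d + 1)) ≤ 2 * a * d := by
  have hn : (1200 : ℝ) ≤ n := by linarith
  have hl1 : Real.log (a + 1) ≤ x := by
    rw [hxn]
    exact Real.log_le_log (by positivity) (by linarith)
  have hl2 : Real.log (2 * a * d * d + 1) ≤ 3 * x := by
    have h1 : (2 * a * d * d + 1 : ℝ) ≤ n ^ 3 := by
      have h3 : (2 * a * d * d : ℝ) ≤ 2 * (n / 2) * (n / 4) * (n / 4) := by
        have : (a : ℝ) ≤ n / 2 := by linarith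
        gcongr
      have h4 : (2 * (n / 2) * (n / 4) * (n / 4) : ℝ) = n ^ 3 / 16 := by ring
      have h5 : (2 : ℝ) ≤ n ^ 3 := by
        have : n ≤ n ^ 3 := le_self_pow₀ (by linarith) (by norm_num)
        linarith
      linarith
    calc Real.log (2 * a * d * d + 1) ≤ Real.log (n ^ 3) := Real.log_le_log (by positivity) h1
      _ = 3 * x := by rw [Real.log_pow, ← hxn]; norm_num
  have hsum : d * Real.log (a + 1) + Real.log (2 * a * d * d + 1) ≤ 4 * d * x := by
    have h1 : (d : ℝ) * Real.log (a + 1) ≤ d * x := mul_le_mul_of_nonneg_left hl1 (by positivity)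
    have h2 : 3 * x ≤ 3 * (d * x) := by
      have : 1 * x ≤ d * x := mul_le_mul_of_nonneg_right (by linarith) (by linarith)
      linarith
    linarith
  have hnn : 0 ≤ d * Real.log (a + 1) + Real.log (2 * a * d * d + 1) := by
    have h1 : 0 ≤ Real.log ((a : ℝ) + 1) := Real.log_nonneg (by linarith)
    have h2 : 0 ≤ Real.log (2 * a * d * d + 1 : ℝ) := Real.log_nonneg (by
      have : (0 : ℝ) ≤ 2 * a * d * d := by positivity
      linarith)
    exact add_nonneg (mul_nonneg (by linarith) h1) h2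
  have hxp : 0 < x := by linarith
  have hup : 0 < u := by linarith
  calc (4 : ℝ) ^ d * (d * Real.log (a + 1) + Real.log (2 * a * d * d + 1)) ≤ u ^ 2 * (4 * d * x) :=
        mul_le_mul h4 hsum hnn (by positivity)
    _ ≤ u ^ 2 * (4 * d * u) :=
        mul_le_mul_of_nonneg_left (mul_le_mul_of_nonneg_left hux (by positivity)) (by positivity)
    _ = 4 * u ^ 3 * d := by ring
    _ ≤ 2 * a * d := mul_le_mul_of_nonneg_right hua (by positivity)

/-- large `n` -/
theorem numeric_large {n m : ℕ} (hx : 3000 ≤ Real.log n) (hm : 1 ≤ m)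
    (H : ∀ d a G : ℕ, 2 ≤ d → d + 1 ≤ a → a + 16 ^ d + 2 * d * (G + 1) + (d + 1) * G ≤ n →
      ∃ S ≤ 2 * a * d, ((d.factorial ^ (2 * a * G) : ℕ) : ℝ) ≤
        ((((a + 1) ^ (d * 4 ^ d) * (2 * a * d * d + 1) ^ (4 ^ d)) ^ G : ℕ) : ℝ) *
          (4 * Real.exp 1 * m / (G * S + 2 : ℕ)) ^ (G * S + 2)) :
    1 / (5120 * Real.exp 4) * (n : ℝ) ^ 2 * Real.log n ≤ m := by
  set x := Real.log n with hxdef
  have hn0 : (0 : ℝ) < n := by
    by_contra h0
    have : (n : ℝ) = 0 := le_antisymm (not_lt.1 h0) (Nat.cast_nonneg n)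
    rw [hxdef, this, Real.log_zero] at hx
    linarith
  set u := Real.exp (x / 10) with hu
  have hux : x ≤ u := by
    have h1 := Real.quadratic_le_exp_of_nonneg (x := x / 10) (by linarith)
    rw [← hu] at h1
    nlinarith
  have hu0 : 3000 ≤ u := hx.trans hux
  have hnu : (n : ℝ) = u ^ 10 := by
    rw [hu, ← Real.exp_nat_mul]
    have : ((10 : ℕ) : ℝ) * (x / 10) = x := by push_cast; ring
    rw [this, hxdef, Real.exp_log hn0]
  set d := ⌊x / 10⌋₊ with hd
  have hd1 : (d : ℝ) ≤ x / 10 := Nat.floor_le (by linarith)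
  have hd2 : x / 10 - 1 < d := by
    have := Nat.lt_floor_add_one (x / 10)
    linarith
  have hd300 : 300 ≤ d := Nat.le_floor (by push_cast; linarith)
  have hd300' : (300 : ℝ) ≤ d := by exact_mod_cast hd300
  set a := n / 4 with hadef
  have ha1 : (a : ℝ) ≤ n / 4 := by
    have : 4 * a ≤ n := Nat.mul_div_le n 4
    have : (4 : ℝ) * a ≤ n := by exact_mod_cast this
    linarith
  have ha2 : (n : ℝ) / 4 - 1 ≤ a := by
    have : n < 4 * (a + 1) := by omega
    have : (n : ℝ) < 4 * (a + 1) := by exact_mod_cast this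
    linarith
  set G := n / (8 * d) with hGdef
  have hdpos : 0 < 8 * d := by omega
  have hG1 : (G : ℝ) * (8 * d) ≤ n := by
    have : G * (8 * d) ≤ n := Nat.div_mul_le_self n (8 * d)
    exact_mod_cast this
  have hG2 : (n : ℝ) < (G + 1) * (8 * d) := by
    have : n < (G + 1) * (8 * d) := by
      have h1 := Nat.lt_div_mul_add hdpos (a := n)
      rw [← hGdef] at h1
      linarith
    exact_mod_cast this
  have hu10 : 3000 * u ≤ u ^ 10 := by
    have h1 : (1 : ℝ) ≤ u := by linarith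
    have h2 : u ^ 2 ≤ u ^ 10 := pow_le_pow_right₀ h1 (by norm_num)
    nlinarith
  -- powers of `4` and `16`
  have h4 : (4 : ℝ) ^ d ≤ u ^ 2 := by
    have h1 : (4 : ℝ) ≤ Real.exp 2 := by
      have := Real.exp_one_gt_d9
      have h2 : Real.exp 2 = Real.exp 1 ^ 2 := by rw [← Real.exp_nat_mul]; norm_num
      rw [h2]
      nlinarith
    calc (4 : ℝ) ^ d ≤ (Real.exp 2) ^ d := by gcongr
      _ = Real.exp (2 * d) := by rw [← Real.exp_nat_mul]; ring_nf
      _ ≤ Real.exp (x / 5) := by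
        apply Real.exp_le_exp.2
        linarith
      _ = u ^ 2 := by
        rw [hu, ← Real.exp_nat_mul]
        congr 1
        push_cast
        ring
  have h16 : (16 : ℝ) ^ d ≤ u ^ 3 := by
    have h1 : (16 : ℝ) ≤ Real.exp 3 := by
      have := Real.exp_one_gt_d9
      have h2 : Real.exp 3 = Real.exp 1 ^ 3 := by rw [← Real.exp_nat_mul]; norm_num
      rw [h2]
      have h3 : (2.7 : ℝ) ^ 3 ≤ Real.exp 1 ^ 3 := by
        gcongr
        linarith
      have h4 : (16 : ℝ) ≤ 2.7 ^ 3 := by norm_num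
      linarith
    calc (16 : ℝ) ^ d ≤ (Real.exp 3) ^ d := by gcongr
      _ = Real.exp (3 * d) := by rw [← Real.exp_nat_mul]; ring_nf
      _ ≤ Real.exp (3 * (x / 10)) := by
        apply Real.exp_le_exp.2
        linarith
      _ = u ^ 3 := by
        rw [hu, ← Real.exp_nat_mul]
        congr 1
  have hu3 : u ^ 3 ≤ u ^ 10 / 16 := by
    have h1 : (1 : ℝ) ≤ u := by linarith
    have h2 : u ^ 4 ≤ u ^ 10 := pow_le_pow_right₀ h1 (by norm_num)
    have h3 : 16 * u ^ 3 ≤ u ^ 4 := by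
      have : 0 ≤ u ^ 3 := by positivity
      nlinarith
    linarith
  have hda : (d : ℝ) + 1 ≤ a := by
    rw [hnu] at ha2
    linarith
  have hGd : (n : ℝ) / (16 * d) ≤ G := by
    have h1 : 16 * (d : ℝ) ≤ n := by rw [hnu]; linarith
    have h2 : (1 : ℝ) ≤ n / (16 * d) := by rw [le_div_iff₀ (by positivity)]; linarith
    have h3 : (n : ℝ) / (8 * d) < G + 1 := by rw [div_lt_iff₀ (by positivity)]; exact hG2
    have h4 : (n : ℝ) / (8 * d) = 2 * (n / (16 * d)) := by field_simp; ring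
    linarith
  have hG1' : 1 ≤ G := by
    have h1 : 16 * (d : ℝ) ≤ n := by rw [hnu]; linarith
    have h2 : (1 : ℝ) ≤ n / (16 * d) := by rw [le_div_iff₀ (by positivity)]; linarith
    exact_mod_cast h2.trans hGd
  obtain ⟨S, hS, hcount⟩ := H d a G (by omega) (by exact_mod_cast hda) (by
    have h1 : (a : ℝ) + 16 ^ d + 2 * d * (G + 1) + (d + 1) * G ≤ n := by
      have h2 : (G : ℝ) ≤ n / 2400 := by
        rw [le_div_iff₀ (by norm_num)]
        nlinarith
      have h3 : 3 * ((G : ℝ) * d) ≤ 3 * n / 8 := by linarith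
      have h4 : (a : ℝ) + 16 ^ d + 2 * d * (G + 1) + (d + 1) * G =
          a + 16 ^ d + 3 * (G * d) + G + 2 * d := by ring
      rw [h4]
      have h5 : 2 * (d : ℝ) ≤ n / 16 := by
        rw [hnu]
        linarith
      rw [← hnu] at hu3
      linarith
    exact_mod_cast h1)
  have hE : (4 : ℝ) ^ d * (d * Real.log (a + 1) + Real.log (2 * a * d * d + 1)) ≤ 2 * a * d := by
    refine numeric_E (n := n) (x := x) (u := u) (by linarith) hux h4 hd300' (by linarith) ?_ ?_ ?_ hxdef
    · rw [hnu]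
      linarith
    · rw [hnu] at ha1 ⊢
      linarith
    · rw [hnu] at ha2
      linarith
  have hcore := numeric_core hd300 (by
    have : (1 : ℝ) ≤ a := by linarith
    exact_mod_cast this) hG1' hm hS hE hcount
  -- lower bound of the left side
  have hlow : x * (n : ℝ) ^ 2 / 1280 ≤ (d : ℝ) * (2 * a * d * G) := by
    have h1 : (n : ℝ) / 8 ≤ a := by
      rw [hnu] at ha2 ⊢
      linarith
    have h2 : (n : ℝ) / 16 ≤ G * d := by
      have := mul_le_mul_of_nonneg_right hGd (by positivity : (0 : ℝ) ≤ d)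
      calc (n : ℝ) / 16 = n / (16 * d) * d := by field_simp
        _ ≤ _ := this
    have h3 : x / 20 ≤ d := by linarith
    calc x * (n : ℝ) ^ 2 / 1280 = (x / 20) * (2 * (n / 8) * (n / 16)) := by ring
      _ ≤ d * (2 * a * (G * d)) := by
        have hxp : 0 < x := by linarith
        gcongr
      _ = _ := by ring
  have he : 0 < Real.exp 4 := Real.exp_pos 4
  have : x * (n : ℝ) ^ 2 / 1280 ≤ 4 * Real.exp 4 * m := hlow.trans hcore
  rw [div_mul_eq_mul_div, div_mul_eq_mul_div, div_le_iff₀ (by positivity)]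
  linarith

theorem numeric : ∃ c : ℝ, 0 < c ∧ ∀ n m : ℕ, 2 ≤ n → 1 ≤ m →
    (∀ d a G : ℕ, 2 ≤ d → d + 1 ≤ a → a + 16 ^ d + 2 * d * (G + 1) + (d + 1) * G ≤ n →
      ∃ S ≤ 2 * a * d, ((d.factorial ^ (2 * a * G) : ℕ) : ℝ) ≤
        ((((a + 1) ^ (d * 4 ^ d) * (2 * a * d * d + 1) ^ (4 ^ d)) ^ G : ℕ) : ℝ) *
          (4 * Real.exp 1 * m / (G * S + 2 : ℕ)) ^ (G * S + 2)) →
    c * (n : ℝ) ^ 2 * Real.log n ≤ m := by
  have he : 0 < Real.exp 4 := Real.exp_pos 4
  refine ⟨1 / (5120 * Real.exp 4) * (Real.exp (-6000) / 3000), by positivity, fun n m hn hm H => ?_⟩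
  have hn1 : (1 : ℝ) ≤ n := by exact_mod_cast (by omega : 1 ≤ n)
  have hlog0 : 0 ≤ Real.log n := Real.log_nonneg hn1
  rcases le_or_gt 3000 (Real.log n) with hx | hx
  · have h1 := numeric_large hx hm H
    refine le_trans ?_ h1
    have h2 : Real.exp (-6000) / 3000 ≤ 1 := by
      rw [div_le_one (by norm_num)]
      have : Real.exp (-6000) ≤ 1 := Real.exp_le_one_iff.2 (by norm_num)
      linarith
    have h3 : 1 / (5120 * Real.exp 4) * (Real.exp (-6000) / 3000) ≤ 1 / (5120 * Real.exp 4) :=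
      mul_le_of_le_one_right (by positivity) h2
    gcongr
  · have hm1 : (1 : ℝ) ≤ m := by exact_mod_cast hm
    refine le_trans ?_ hm1
    have h1 : (n : ℝ) ≤ Real.exp 3000 := by
      calc (n : ℝ) = Real.exp (Real.log n) := (Real.exp_log (by linarith)).symm
        _ ≤ Real.exp 3000 := Real.exp_le_exp.2 hx.le
    have h2 : (n : ℝ) ^ 2 ≤ Real.exp 6000 := by
      calc (n : ℝ) ^ 2 ≤ (Real.exp 3000) ^ 2 := by gcongr
        _ = Real.exp 6000 := by rw [← Real.exp_nat_mul]; norm_num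
    have h3 : Real.exp (-6000) * (n : ℝ) ^ 2 ≤ 1 := by
      calc Real.exp (-6000) * (n : ℝ) ^ 2 ≤ Real.exp (-6000) * Real.exp 6000 := by gcongr
        _ = 1 := by rw [← Real.exp_add]; norm_num
    have h4 : Real.log n / 3000 ≤ 1 := by
      rw [div_le_one (by norm_num)]
      exact hx.le
    have h5 : 1 / (5120 * Real.exp 4) ≤ 1 := by
      rw [div_le_one (by positivity)]
      have : 1 ≤ Real.exp 4 := Real.one_le_exp (by norm_num)
      linarith
    calc 1 / (5120 * Real.exp 4) * (Real.exp (-6000) / 3000) * (n : ℝ) ^ 2 * Real.log n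
        = 1 / (5120 * Real.exp 4) * (Real.exp (-6000) * (n : ℝ) ^ 2) * (Real.log n / 3000) := by ring
      _ ≤ 1 * 1 * 1 := by gcongr
      _ = 1 := by norm_num

end Pool.Agent.Helper24.SQ
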