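import Pool.Agent.Helper24.SQ.Main
import Pool.Agent.Helper24.SQ.Numeric

/-!
# MODULE Final: the lower bound for the (border) determinantal complexity
-/

set_option autoImplicit false

namespace Pool.Agent.Helper24.SQ

theorem final : ∃ c : ℝ, 0 < c ∧ ∀ n m : ℕ, 2 ≤ n → BorderRep n m →
    c * (n : ℝ) ^ 2 * Real.log n ≤ m := by
  obtain ⟨c, hc, H⟩ := numeric
  exact ⟨c, hc, fun n m hn h => H n m hn (h.pos (by omega))
    fun d a G hd ha hn' => main_count n m d a G hd ha hn' h⟩

end Pool.Agent.Helper24.SQ
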