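import Pool.Agent.Helper24.SQ.Defs
import Pool.Agent.Helper16.SQG.Core

/-!
# MODULE Gadget: a sum of rook sums of size `s` is a projection of a permanent
-/

set_option autoImplicit false
set_option linter.unusedSectionVars false

namespace Pool.Agent.Helper24.SQ

open Finset Matrix

namespace Gadget

open Helper16.SQG

theorem rook_map {A B I J : Type} [CommRing A] [CommRing B] [Fintype I] [Fintype J] [DecidableEq I]
    [DecidableEq J] (f : A →+* B) (s : ℕ) (Y : I → J → A) :
    rook s (fun i l => f (Y i l)) = f (rook s Y) := by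
  unfold rook RK E
  simp only [map_sum, map_prod]

/-- the rows -/
abbrev Row (γ I : Type) (R s p : ℕ) : Type := I ⊕ (γ × Fin (R - s)) ⊕ (γ × Fin s) ⊕ Fin p

/-- the columns -/
abbrev Col (γ J : Type) (s m : ℕ) : Type := (γ × J) ⊕ (γ × Fin s) ⊕ Fin m

/-- the entries -/
noncomputable def ent {γ I J : Type} [DecidableEq γ] {R s p m : ℕ} (ζ : ℂ) :
    Row γ I R s p → Col γ J s m → ℂ ⊕ (γ × I × J)
  | Sum.inl i, Sum.inl (g, l) => Sum.inr (g, i, l)
  | Sum.inl _, Sum.inr (Sum.inl _) => Sum.inl 0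
  | Sum.inl _, Sum.inr (Sum.inr _) => Sum.inl 1
  | Sum.inr (Sum.inl (g, _)), Sum.inl (g', _) => Sum.inl (if g = g' then 1 else 0)
  | Sum.inr (Sum.inl _), Sum.inr _ => Sum.inl 0
  | Sum.inr (Sum.inr (Sum.inl (g, j))), Sum.inl (g', _) =>
      Sum.inl (if g = g' then ζ ^ (j : ℕ) else 0)
  | Sum.inr (Sum.inr (Sum.inl (g, _))), Sum.inr (Sum.inl (g', _)) =>
      Sum.inl (if g = g' then 1 else 0)
  | Sum.inr (Sum.inr (Sum.inl _)), Sum.inr (Sum.inr _) => Sum.inl 0
  | Sum.inr (Sum.inr (Sum.inr _)), Sum.inl _ => Sum.inl 0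
  | Sum.inr (Sum.inr (Sum.inr _)), Sum.inr (Sum.inl _) => Sum.inl 1
  | Sum.inr (Sum.inr (Sum.inr _)), Sum.inr (Sum.inr _) => Sum.inl 0

theorem ite_sum {γ κ B : Type} [Fintype γ] [DecidableEq γ] [Fintype κ] [CommRing B] (g : γ) (a : B)
    (z : γ → κ → B) : ∑ q : γ × κ, (if g = q.1 then a else 0) * z q.1 q.2 = a * ∑ l, z g l := by
  rw [Fintype.sum_prod_type, Finset.sum_eq_single g]
  · simp [Finset.mul_sum]
  · intro g' _ h
    simp [h.symm]
  · simp

end Gadget

open Helper16.SQG Gadget in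
theorem gadget (I J : Type) [Fintype I] [Fintype J] [DecidableEq I] [DecidableEq J]
    (s G n : ℕ) (hs : 1 ≤ s) (hI : s ≤ Fintype.card I) (hJ : s ≤ Fintype.card J)
    (hn : n = Fintype.card I + Fintype.card J * (G + 1) + s * G) :
    ∃ (e : Fin n → Fin n → ℂ ⊕ (Fin (G + 1) × I × J)) (C : ℂ), C ≠ 0 ∧
      ∀ (A : Type) [CommRing A] [Algebra ℂ A] (Y : Fin (G + 1) → I → J → A),
        (Matrix.of fun i j => (e i j).elim (algebraMap ℂ A) fun q => Y q.1 q.2.1 q.2.2).permanent =
          algebraMap ℂ A C * ∑ g, rook s (Y g) := by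
  obtain ⟨R, hR⟩ : ∃ R, Fintype.card J = R := ⟨_, rfl⟩
  obtain ⟨m, hm⟩ : ∃ m, Fintype.card I - s = m := ⟨_, rfl⟩
  have hsR : s ≤ R := hR ▸ hJ
  have hcR : Fintype.card (Row (Fin (G + 1)) I R s (s * G)) = n := by
    have h1 : (G + 1) * (R - s) + (G + 1) * s = (G + 1) * R := by
      rw [← Nat.mul_add, Nat.sub_add_cancel hsR]
    have h2 : R * (G + 1) = (G + 1) * R := Nat.mul_comm _ _
    rw [hn, hR]
    simp only [Fintype.card_sum, Fintype.card_prod, Fintype.card_fin]
    omega
  have hcC : Fintype.card (Col (Fin (G + 1)) J s m) = n := by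
    have h2 : R * (G + 1) = (G + 1) * R := Nat.mul_comm _ _
    have h3 : (G + 1) * s = s * G + s := by ring
    rw [hn, hR]
    simp only [Fintype.card_sum, Fintype.card_prod, Fintype.card_fin]
    rw [hR]
    omega
  let eR : Fin n ≃ Row (Fin (G + 1)) I R s (s * G) := (Fintype.equivFinOfCardEq hcR).symm
  let eC : Fin n ≃ Col (Fin (G + 1)) J s m := (Fintype.equivFinOfCardEq hcC).symm
  set ζ : ℂ := Complex.exp (2 * Real.pi * Complex.I / s) with hζ
  have hprim : IsPrimitiveRoot ζ s := Complex.isPrimitiveRoot_exp s (by omega)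
  set C : ℂ := (m.factorial : ℂ) * ((R - s).factorial : ℂ) *
      (s.factorial : ℂ) * ((-1) ^ (s + 1) * (R.factorial : ℂ)) ^ G *
      ((s * G).factorial : ℂ) with hC
  refine ⟨fun i j => ent ζ (eR i) (eC j), C, ?_, ?_⟩
  · have h := fun k : ℕ => (Nat.cast_ne_zero (R := ℂ)).2 (Nat.factorial_ne_zero k)
    rw [hC]
    refine mul_ne_zero (mul_ne_zero (mul_ne_zero (mul_ne_zero (h _) (h _)) (h _))
      (pow_ne_zero _ (mul_ne_zero (pow_ne_zero _ (by norm_num)) (h _)))) (h _)
  intro A _ _ Y
  let κ := Col (Fin (G + 1)) J s m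
  let B := SqR κ A
  let f : A →+* B := algebraMap A B
  let x : κ → B := xs κ A
  have hx : ∀ c, x c * x c = 0 := xs_sq κ A
  apply xs_inj κ A
  let val : ℂ ⊕ (Fin (G + 1) × I × J) → A := fun u =>
    u.elim (algebraMap ℂ A) fun q => Y q.1 q.2.1 q.2.2
  have key := prod_forms' f eR eC (fun r c => val (ent ζ r c)) x hx
  refine key.symm.trans ?_
  have hc := core (fun g i l => f (Y g i l)) hs (Fintype.card_fin (G + 1)) hm hR hI hJ
    (fun g l => x (Sum.inl (g, l))) (fun g l => hx _)
    (fun g j => x (Sum.inr (Sum.inl (g, j)))) (fun g j => hx _)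
    (fun k => x (Sum.inr (Sum.inr k))) (fun k => hx _)
  have hrook : ∑ g, rook s (fun i l => f (Y g i l)) = f (∑ g, rook s (Y g)) := by
    rw [map_sum]
    exact Finset.sum_congr rfl fun g _ => rook_map f s (Y g)
  have hx2 : ∏ c, x c = (∏ g, ∏ l, x (Sum.inl (g, l))) *
      (∏ g, ∏ j, x (Sum.inr (Sum.inl (g, j)))) * ∏ k, x (Sum.inr (Sum.inr k)) := by
    rw [Fintype.prod_sum_type, Fintype.prod_sum_type, Fintype.prod_prod_type,
      Fintype.prod_prod_type, mul_assoc]
  have hCf : f (algebraMap ℂ A C) = (m.factorial : B) * ((R - s).factorial : B) *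
      (s.factorial : B) * ((-1) ^ (s + 1) * (R.factorial : B)) ^ G *
      ((s * G).factorial : B) := by
    rw [hC]
    simp only [map_mul, map_pow, map_neg, map_one, map_natCast]
  rw [map_mul, hCf, hx2, ← hrook]
  refine Eq.trans ?_ hc
  rw [Fintype.prod_sum_type, Fintype.prod_sum_type, Fintype.prod_sum_type, ← mul_assoc, ← mul_assoc]
  have f0 : f (algebraMap ℂ A 0) = 0 := by rw [map_zero, map_zero]
  have f1 : f (algebraMap ℂ A 1) = 1 := by rw [map_one, map_one]
  congr 1
  · congr 1
    · congr 1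
      · refine prod_congr rfl fun i _ => ?_
        rw [Fintype.sum_sum_type, Fintype.sum_sum_type, Fintype.sum_prod_type]
        simp only [val, ent, Sum.elim_inl, Sum.elim_inr, f0, f1, zero_mul, sum_const_zero, zero_add,
          one_mul]
        rw [add_comm]
      · rw [Fintype.prod_prod_type]
        refine prod_congr rfl fun g _ => ?_
        rw [prod_eq_pow_card (b := ∑ l, x (Sum.inl (g, l))), card_univ, Fintype.card_fin]
        intro a _
        rw [Fintype.sum_sum_type]
        simp only [val, ent, Sum.elim_inl, f0, zero_mul, sum_const_zero, add_zero]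
        have := ite_sum g (1 : B) (fun g l => x (Sum.inl (g, l)))
        rw [one_mul] at this
        rw [← this]
        refine Finset.sum_congr rfl fun q _ => ?_
        split_ifs
        · rw [f1]
        · rw [f0]
    · rw [Fintype.prod_prod_type]
      refine prod_congr rfl fun g _ => ?_
      have hr := prod_roots (f.comp (algebraMap ℂ A)) hs hprim (∑ j, x (Sum.inr (Sum.inl (g, j))))
        (∑ l, x (Sum.inl (g, l)))
      rw [← hr]
      refine prod_congr rfl fun j _ => ?_
      rw [Fintype.sum_sum_type, Fintype.sum_sum_type]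
      simp only [val, ent, Sum.elim_inl, f0, zero_mul, sum_const_zero, add_zero]
      have h1 := ite_sum g (f (algebraMap ℂ A (ζ ^ (j : ℕ)))) (fun g l => x (Sum.inl (g, l)))
      have h2 := ite_sum g (1 : B) (fun g j => x (Sum.inr (Sum.inl (g, j))))
      rw [one_mul] at h2
      rw [RingHom.comp_apply, ← h1, ← h2]
      congr 1
      · refine Finset.sum_congr rfl fun q _ => ?_
        split_ifs
        · rfl
        · rw [f0]
      · refine Finset.sum_congr rfl fun q _ => ?_
        split_ifs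
        · rw [f1]
        · rw [f0]
  · rw [prod_eq_pow_card (b := ∑ g, ∑ j, x (Sum.inr (Sum.inl (g, j)))), card_univ, Fintype.card_fin]
    intro a _
    rw [Fintype.sum_sum_type, Fintype.sum_sum_type]
    simp only [val, ent, Sum.elim_inl, f0, f1, zero_mul, sum_const_zero, add_zero, zero_add, one_mul]
    rw [Fintype.sum_prod_type]

end Pool.Agent.Helper24.SQ
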