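import Pool.Agent.Helper24.SQ.Defs

/-!
# MODULE IFT: nondegenerate zeros persist
-/

set_option autoImplicit false

namespace Pool.Agent.Helper24.SQ

open Filter Topology MvPolynomial

section

variable {σ : Type} [Fintype σ]

/-- the derivative of the evaluation of a polynomial -/
noncomputable def iftD (p : MvPolynomial σ ℂ) (x : σ → ℂ) : (σ → ℂ) →L[ℂ] ℂ :=
  ∑ i, eval x (pderiv i p) • (ContinuousLinearMap.proj i : (σ → ℂ) →L[ℂ] ℂ)

lemma iftD_apply (p : MvPolynomial σ ℂ) (x v : σ → ℂ) :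
    iftD p x v = ∑ i, eval x (pderiv i p) * v i := by
  simp [iftD]

lemma ift_hasStrict (p : MvPolynomial σ ℂ) (x : σ → ℂ) :
    HasStrictFDerivAt (fun x => eval x p) (iftD p x) x := by
  classical
  induction p using MvPolynomial.induction_on with
  | C a =>
    have h : iftD (C a : MvPolynomial σ ℂ) x = 0 := by
      ext v
      simp [iftD_apply]
    rw [h]
    simpa using hasStrictFDerivAt_const a x
  | add p q hp hq =>
    have h : iftD (p + q) x = iftD p x + iftD q x := by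
      ext v
      simp [iftD_apply, add_mul, Finset.sum_add_distrib]
    rw [h]
    have h1 : (fun x => eval x (p + q)) = (fun x => eval x p) + fun x => eval x q := by
      funext y
      simp
    rw [h1]
    exact hp.add hq
  | mul_X p i hp =>
    have h1 := hp.mul (hasStrictFDerivAt_apply (𝕜 := ℂ) i x)
    have h : iftD (p * X i) x =
        eval x p • (ContinuousLinearMap.proj i : (σ → ℂ) →L[ℂ] ℂ) + x i • iftD p x := by
      ext v
      simp only [iftD_apply, Derivation.leibniz, pderiv_X, smul_eq_mul, map_add, map_mul, eval_X,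
        add_mul, Finset.sum_add_distrib, add_apply,
        smul_apply, ContinuousLinearMap.proj_apply, Finset.mul_sum]
      congr 1
      · rw [Finset.sum_eq_single i]
        · simp
        · intro j _ hj
          simp [hj]
        · simp
      · refine Finset.sum_congr rfl fun j _ => ?_
        ring
    rw [h]
    have h2 : (fun x => eval x (p * X i)) = (fun x => eval x p) * fun f : σ → ℂ => f i := by
      funext y
      simp
    rw [h2]
    exact h1

end

theorem persist {σ τ κ : Type} [Fintype σ] [Fintype τ] [Fintype κ]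
    (hcard : Fintype.card τ = Fintype.card σ) (F : τ → MvPolynomial σ ℂ)
    (G : κ → τ → MvPolynomial σ ℂ) (Z : Finset (σ → ℂ)) (hZ : ∀ z ∈ Z, NonDeg F z) :
    ∃ ε : ℝ, 0 < ε ∧ ∀ t : κ → ℂ, (∀ k, ‖t k‖ < ε) → ∃ Z' : Finset (σ → ℂ), Z'.card = Z.card ∧
      ∀ z ∈ Z', NonDeg (fun j => F j + ∑ k, t k • G k j) z := by
  classical
  obtain ⟨e⟩ : Nonempty (σ ≃ τ) := ⟨Fintype.equivOfCardEq hcard.symm⟩
  -- the Jacobian matrix
  let M : (κ → ℂ) × (σ → ℂ) → Matrix σ σ ℂ := fun p => Matrix.of fun i j =>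
    eval p.2 (pderiv j (F (e i))) + ∑ k, p.1 k * eval p.2 (pderiv j (G k (e i)))
  have hMapp : ∀ p i j, M p i j =
      eval p.2 (pderiv j (F (e i))) + ∑ k, p.1 k * eval p.2 (pderiv j (G k (e i))) :=
    fun _ _ _ => rfl
  have hMeval : ∀ t x i j, eval x (pderiv j (F (e i) + ∑ k, t k • G k (e i))) = M (t, x) i j := by
    intro t x i j
    rw [hMapp]
    simp [map_sum, smul_eval]
  have hnondeg : ∀ t x, (M (t, x)).det ≠ 0 ↔
      ∀ v : σ → ℂ, (∀ j, ∑ i, eval x (pderiv i (F j + ∑ k, t k • G k j)) * v i = 0) → v = 0 := by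
    intro t x
    have h1 : ∀ v : σ → ℂ, (M (t, x)).mulVec v = 0 ↔
        ∀ j, ∑ i, eval x (pderiv i (F j + ∑ k, t k • G k j)) * v i = 0 := by
      intro v
      constructor
      · intro h j
        obtain ⟨i, rfl⟩ := e.surjective j
        have h2 := congrFun h i
        simp only [Matrix.mulVec, dotProduct, Pi.zero_apply] at h2
        rw [← h2]
        exact Finset.sum_congr rfl fun j _ => by rw [hMeval]
      · intro h
        funext i
        simp only [Matrix.mulVec, dotProduct, Pi.zero_apply]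
        rw [← h (e i)]
        exact Finset.sum_congr rfl fun j _ => by rw [hMeval]
    rw [Ne, ← Matrix.exists_mulVec_eq_zero_iff]
    push Not
    constructor
    · intro h v hv
      by_contra hv0
      exact h v hv0 ((h1 v).2 hv)
    · intro h v hv0 hv
      exact hv0 (h v ((h1 v).1 hv))
  have hMcont : Continuous fun p => (M p).det := by
    refine Continuous.matrix_det ?_
    refine continuous_matrix fun i j => ?_
    simp only [hMapp]
    have h1 : ∀ q : MvPolynomial σ ℂ, Continuous fun p : (κ → ℂ) × (σ → ℂ) => eval p.2 q :=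
      fun q => (MvPolynomial.continuous_eval q).comp continuous_snd
    refine (h1 _).add (continuous_finsetSum _ fun k _ => ?_)
    exact ((continuous_apply k).comp continuous_fst).mul (h1 _)
  -- the map
  let Φ : (κ → ℂ) × (σ → ℂ) → (κ → ℂ) × (σ → ℂ) := fun p =>
    (p.1, fun i => eval p.2 (F (e i)) + ∑ k, p.1 k * eval p.2 (G k (e i)))
  have hΦzero : ∀ z, (∀ j, eval z (F j) = 0) → Φ (0, z) = (0, 0) := by
    intro z hz
    refine Prod.ext rfl ?_
    funext i
    simp [Φ, hz]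
  let L : (σ → ℂ) → ((κ → ℂ) × (σ → ℂ) →L[ℂ] (κ → ℂ) × (σ → ℂ)) := fun z =>
    (ContinuousLinearMap.fst ℂ (κ → ℂ) (σ → ℂ)).prod
      (ContinuousLinearMap.pi fun i => (iftD (F (e i)) z).comp
        (ContinuousLinearMap.snd ℂ (κ → ℂ) (σ → ℂ)) +
        ∑ k, eval z (G k (e i)) • (ContinuousLinearMap.proj k : (κ → ℂ) →L[ℂ] ℂ).comp
          (ContinuousLinearMap.fst ℂ (κ → ℂ) (σ → ℂ)))
  have hL : ∀ z, HasStrictFDerivAt Φ (L z) (0, z) := by
    intro z
    have h1 : ∀ q : MvPolynomial σ ℂ, HasStrictFDerivAt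
        (fun p : (κ → ℂ) × (σ → ℂ) => eval p.2 q)
        ((iftD q z).comp (ContinuousLinearMap.snd ℂ (κ → ℂ) (σ → ℂ))) ((0 : κ → ℂ), z) := fun q =>
      (ift_hasStrict q z).comp ((0 : κ → ℂ), z) (hasStrictFDerivAt_snd (𝕜 := ℂ))
    refine HasStrictFDerivAt.prodMk hasStrictFDerivAt_fst ?_
    rw [hasStrictFDerivAt_pi']
    intro i
    rw [ContinuousLinearMap.proj_pi]
    refine (h1 _).add ?_
    refine HasStrictFDerivAt.fun_sum fun k _ => ?_
    have h2 : HasStrictFDerivAt (fun p : (κ → ℂ) × (σ → ℂ) => p.1 k)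
        ((ContinuousLinearMap.proj k : (κ → ℂ) →L[ℂ] ℂ).comp
          (ContinuousLinearMap.fst ℂ (κ → ℂ) (σ → ℂ))) (0, z) :=
      (hasStrictFDerivAt_apply (𝕜 := ℂ) k (0 : κ → ℂ)).comp ((0 : κ → ℂ), z)
        (hasStrictFDerivAt_fst (𝕜 := ℂ))
    have h3 := h2.mul (h1 (G k (e i)))
    refine h3.congr_fderiv ?_
    ext v
    · simp
    · simp
  have hrange : ∀ z, (M (0, z)).det ≠ 0 → (L z).range = ⊤ := by
    intro z hz
    rw [LinearMap.range_eq_top]
    rintro ⟨s, y⟩
    have hunit : IsUnit (M (0, z)).det := isUnit_iff_ne_zero.2 hz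
    refine ⟨(s, (M (0, z))⁻¹.mulVec (fun i => y i - ∑ k, eval z (G k (e i)) * s k)), ?_⟩
    refine Prod.ext rfl ?_
    funext i
    have h2 : (M (0, z)).mulVec ((M (0, z))⁻¹.mulVec
        (fun i => y i - ∑ k, eval z (G k (e i)) * s k)) =
        fun i => y i - ∑ k, eval z (G k (e i)) * s k := by
      rw [Matrix.mulVec_mulVec, Matrix.mul_nonsing_inv _ hunit, Matrix.one_mulVec]
    have h3 := congrFun h2 i
    simp only [Matrix.mulVec, dotProduct] at h3
    have h4 : ∀ j, M (0, z) i j = eval z (pderiv j (F (e i))) := by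
      intro j
      rw [hMapp]
      simp
    simp only [h4] at h3
    change (iftD (F (e i)) z) _ + (∑ k, eval z (G k (e i)) •
      (ContinuousLinearMap.proj k : (κ → ℂ) →L[ℂ] ℂ).comp
          (ContinuousLinearMap.fst ℂ (κ → ℂ) (σ → ℂ))) (s, _) = y i
    rw [iftD_apply, sum_apply]
    simp only [smul_apply, ContinuousLinearMap.comp_apply,
      ContinuousLinearMap.coe_fst',
      ContinuousLinearMap.proj_apply, smul_eq_mul]
    have h5 : ∑ j, eval z (pderiv j (F (e i))) *
        ((M (0, z))⁻¹.mulVec (fun i => y i - ∑ k, eval z (G k (e i)) * s k)) j =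
        y i - ∑ k, eval z (G k (e i)) * s k := by
      simpa [Matrix.mulVec, dotProduct] using h3
    have h6 : ∀ w : σ → ℂ, (ContinuousLinearMap.snd ℂ (κ → ℂ) (σ → ℂ)) (s, w) = w := fun _ => rfl
    have h7 : ∑ j, eval z (pderiv j (F (e i))) *
        (ContinuousLinearMap.snd ℂ (κ → ℂ) (σ → ℂ)) (s, (M (0, z))⁻¹.mulVec
          (fun i => y i - ∑ k, eval z (G k (e i)) * s k)) j =
        y i - ∑ k, eval z (G k (e i)) * s k := h5
    exact (congrArg (· + ∑ k, eval z (G k (e i)) * s k) h7).trans (sub_add_cancel _ _)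
  -- disjoint neighbourhoods
  obtain ⟨U, hU, hdisj⟩ := Z.finite_toSet.t2_separation
  have key : ∀ z ∈ Z, ∀ᶠ t : κ → ℂ in 𝓝 0, ∃ x ∈ U z,
      (∀ j, eval x (F j + ∑ k, t k • G k j) = 0) ∧ (M (t, x)).det ≠ 0 := by
    intro z hz
    obtain ⟨h1, h2⟩ := hZ z hz
    have hdet : (M (0, z)).det ≠ 0 := by
      rw [hnondeg]
      intro v hv
      refine h2 v fun j => ?_
      have := hv j
      simpa using this
    have hS : {p : (κ → ℂ) × (σ → ℂ) | p.2 ∈ U z ∧ (M p).det ≠ 0} ∈ 𝓝 ((0 : κ → ℂ), z) := by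
      have h3 : ∀ᶠ p : (κ → ℂ) × (σ → ℂ) in 𝓝 ((0 : κ → ℂ), z), p.2 ∈ U z :=
        continuous_snd.continuousAt.eventually (((hU z).2.mem_nhds (hU z).1))
      have h4 : ∀ᶠ p : (κ → ℂ) × (σ → ℂ) in 𝓝 ((0 : κ → ℂ), z), (M p).det ≠ 0 :=
        hMcont.continuousAt.eventually_ne hdet
      filter_upwards [h3, h4] with p h5 h6
      exact ⟨h5, h6⟩
    have hmap := (hL z).map_nhds_eq_of_surj (hrange z hdet)
    have h5 : Φ '' {p : (κ → ℂ) × (σ → ℂ) | p.2 ∈ U z ∧ (M p).det ≠ 0} ∈
        𝓝 ((0 : κ → ℂ), (0 : σ → ℂ)) := by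
      rw [← hΦzero z h1, ← hmap]
      exact image_mem_map hS
    have h6 : Tendsto (fun t : κ → ℂ => (t, (0 : σ → ℂ))) (𝓝 0) (𝓝 (0, 0)) :=
      (Continuous.prodMk continuous_id continuous_const).tendsto' _ _ rfl
    filter_upwards [h6 h5] with t ht
    obtain ⟨⟨t', x⟩, ⟨hx1, hx2⟩, hx3⟩ := ht
    have h7 : t' = t := congrArg Prod.fst hx3
    subst h7
    refine ⟨x, hx1, ?_, hx2⟩
    intro j
    obtain ⟨i, rfl⟩ := e.surjective j
    have h8 := congrFun (congrArg Prod.snd hx3) i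
    simpa [Φ, map_sum, smul_eval] using h8
  have key2 : ∀ᶠ t : κ → ℂ in 𝓝 0, ∀ z ∈ Z, ∃ x ∈ U z,
      (∀ j, eval x (F j + ∑ k, t k • G k j) = 0) ∧ (M (t, x)).det ≠ 0 :=
    (Filter.eventually_all_finset Z).2 key
  obtain ⟨ε, hε, h⟩ := Metric.eventually_nhds_iff.1 key2
  refine ⟨ε, hε, fun t ht => ?_⟩
  have h1 := h (y := t) (by
    rw [dist_zero_right, pi_norm_lt_iff hε]
    exact ht)
  choose! x hx1 hx2 hx3 using h1
  refine ⟨Z.image x, ?_, ?_⟩
  · refine Finset.card_image_of_injOn ?_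
    intro z hz w hw hzw
    by_contra hne
    have h2 := hdisj hz hw hne
    exact (Set.disjoint_left.1 h2 (hx1 z hz)) (by rw [hzw]; exact hx1 w hw)
  · intro y hy
    obtain ⟨z, hz, rfl⟩ := Finset.mem_image.1 hy
    exact ⟨hx2 z hz, (hnondeg t (x z)).1 (hx3 z hz)⟩

end Pool.Agent.Helper24.SQ
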