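import Pool.Agent.Helper24.SQ.CritPts
import Pool.Agent.Helper24.SQ.Gadget
import Pool.Agent.Helper24.SQ.Pad

/-!
# MODULE Main: the counting inequality
-/

set_option autoImplicit false

namespace Pool.Agent.Helper24.SQ

open Finset MvPolynomial

/-- The permanent as a limit: nondegenerate critical points of a projection of the permanent are
bounded by those of polynomials with determinantal representations. -/
theorem exists_crit_near {n m : ℕ} {ι : Type} [Fintype ι] (h : BorderRep n m)
    (f : Fin n × Fin n → MvPolynomial (Option ι) ℂ) (hf : ∀ q, (f q).totalDegree ≤ 1)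
    (Z : Finset (Option ι → ℂ)) (hZ : ∀ z ∈ Z, CritPt (aeval f (permPoly n)) z) :
    ∃ (P : MvPolynomial (Option ι) ℂ) (Z' : Finset (Option ι → ℂ)), DetRep P m ∧
      Z'.card = Z.card ∧ ∀ z ∈ Z', CritPt P z := by
  classical
  set D := max m (permPoly n).totalDegree with hD
  -- the monomials of degree at most `D`
  have hfin : {s : Fin n × Fin n →₀ ℕ | (s.sum fun _ e => e) ≤ D}.Finite := by
    have : {s : Fin n × Fin n →₀ ℕ | (s.sum fun _ e => e) ≤ D} ⊆
        ↑(Finset.Iic (Finsupp.equivFunOnFinite.symm fun _ : Fin n × Fin n => D)) := by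
      intro s hs
      rw [Finset.mem_coe, Finset.mem_Iic]
      intro q
      show s q ≤ D
      refine le_trans ?_ hs
      by_cases hq : q ∈ s.support
      · exact Finset.single_le_sum (f := fun q => s q) (fun _ _ => Nat.zero_le _) hq
      · rw [Finsupp.notMem_support_iff.1 hq]; exact Nat.zero_le _
    exact Set.Finite.subset (Finset.finite_toSet _) this
  set κ : Finset (Fin n × Fin n →₀ ℕ) := hfin.toFinset with hκ
  obtain ⟨ε, hε, hpers⟩ := crit_persist (aeval f (permPoly n))
    (fun k : κ => aeval f (monomial (k : Fin n × Fin n →₀ ℕ) (1 : ℂ))) Z hZ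
  obtain ⟨P, hP, hPc⟩ := h ε hε
  obtain ⟨Z', hZ', hcrit⟩ := hpers (fun k => P.coeff k - (permPoly n).coeff k) fun k => hPc _
  refine ⟨aeval f P, Z', hP.subst f hf, hZ', fun z hz => ?_⟩
  have hexp : ∀ Q : MvPolynomial (Fin n × Fin n) ℂ, Q.totalDegree ≤ D →
      Q = ∑ k : κ, Q.coeff k • monomial (k : Fin n × Fin n →₀ ℕ) (1 : ℂ) := by
    intro Q hQ
    rw [Finset.sum_coe_sort κ (fun k => Q.coeff k • monomial k (1 : ℂ))]
    conv_lhs => rw [Q.as_sum]
    rw [Finset.sum_subset (s₂ := κ)]
    · refine Finset.sum_congr rfl fun k _ => ?_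
      rw [smul_monomial, smul_eq_mul, mul_one]
    · intro k hk
      rw [hκ, Set.Finite.mem_toFinset]
      exact (le_totalDegree hk).trans hQ
    · intro k _ hk
      rw [notMem_support_iff.1 hk, monomial_zero]
  have h1 : aeval f P = aeval f (permPoly n) + ∑ k : κ, (P.coeff k - (permPoly n).coeff k) •
      aeval f (monomial (k : Fin n × Fin n →₀ ℕ) (1 : ℂ)) := by
    have hPd := hexp P (hP.totalDegree_le.trans (le_max_left _ _))
    have hpd := hexp (permPoly n) (le_max_right _ _)
    have e : P = permPoly n + ∑ k : κ, (P.coeff k - (permPoly n).coeff k) •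
        monomial (k : Fin n × Fin n →₀ ℕ) (1 : ℂ) := by
      simp only [sub_smul]
      rw [Finset.sum_sub_distrib, ← hPd, ← hpd]
      ring
    conv_lhs => rw [e]
    rw [map_add, map_sum]
    simp only [map_smul]
  rw [h1]
  exact hcrit z hz

theorem main_count (n m d a G : ℕ) (hd : 2 ≤ d) (ha : d + 1 ≤ a)
    (hn : a + 16 ^ d + 2 * d * (G + 1) + (d + 1) * G ≤ n) (h : BorderRep n m) :
    ∃ S ≤ 2 * a * d, ((d.factorial ^ (2 * a * G) : ℕ) : ℝ) ≤
      ((((a + 1) ^ (d * 4 ^ d) * (2 * a * d * d + 1) ^ (4 ^ d)) ^ G : ℕ) : ℝ) *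
        (4 * Real.exp 1 * m / (G * S + 2 : ℕ)) ^ (G * S + 2) := by
  classical
  obtain ⟨S, M, hM, hZ⟩ := exists_critPts d a G hd ha
  have hcI : Fintype.card (II a d) = a + 16 ^ d := by
    simp only [II, JJ, Fintype.card_sum, Fintype.card_fin, Fintype.card_prod, Fintype.card_finset,
      Fintype.card_fun, Fintype.card_bool]
    rw [← pow_add, show 2 * d + 2 * d = 4 * d by ring, pow_mul]
    norm_num
  have hcJ : Fintype.card (JJ d) = 2 * d := by
    simp only [JJ, Fintype.card_fin, Fintype.card_prod]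
  set n' := Fintype.card (II a d) + Fintype.card (JJ d) * (G + 1) + (d + 1) * G with hn'
  have hnn : n' ≤ n := by rw [hn', hcI, hcJ]; exact hn
  obtain ⟨e, C₀, hC₀, hgad⟩ := gadget (II a d) (JJ d) (d + 1) G n' (Nat.le_add_left 1 d)
    (by rw [hcI]; exact ha.trans (Nat.le_add_right _ _)) (by rw [hcJ]; omega) hn'
  obtain ⟨Z, hcrit, hcount⟩ := hZ C₀ hC₀
  set f : Fin n' × Fin n' → MvPolynomial (Option (Fin G × S)) ℂ := fun q =>
    (e q.1 q.2).elim (algebraMap ℂ _) fun q => M q.1 q.2.1 q.2.2 with hf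
  have hF : aeval f (permPoly n') = C C₀ * ∑ g, rook (d + 1) (M g) := by
    rw [aeval_permPoly]
    exact hgad (MvPolynomial (Option (Fin G × S)) ℂ) M
  have hfd : ∀ q, (f q).totalDegree ≤ 1 := by
    intro q
    simp only [hf]
    rcases e q.1 q.2 with c | q'
    · simp only [Sum.elim_inl, algebraMap_eq, totalDegree_C, zero_le]
    · exact hM _ _ _
  obtain ⟨P, Z', hP, hZ', hcrit'⟩ := exists_crit_near (h.mono_left hnn) f hfd Z
    (fun z hz => hF ▸ hcrit z hz)
  have hb := crit_bound m P hP Z' hcrit'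
  have hcard : Fintype.card (Fin G × S) = G * S.card := by
    rw [Fintype.card_prod, Fintype.card_fin, Fintype.card_coe]
  rw [hcard, hZ'] at hb
  have hcount' : ((d.factorial ^ (2 * a * G) : ℕ) : ℝ) ≤
      ((((a + 1) ^ (d * 4 ^ d) * (2 * a * d * d + 1) ^ (4 ^ d)) ^ G : ℕ) : ℝ) * (Z.card : ℝ) := by
    exact_mod_cast hcount
  refine ⟨S.card, ?_, hcount'.trans (mul_le_mul_of_nonneg_left hb (Nat.cast_nonneg _))⟩
  have := Finset.card_le_univ S
  rw [Fintype.card_prod, Fintype.card_fin, hcJ] at this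
  calc S.card ≤ a * (2 * d) := this
    _ = 2 * a * d := by ring

end Pool.Agent.Helper24.SQ
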